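import Mathlib

/-! ET0L systems, k-restricted tables, basic lemmas on parallel rewriting. -/

namespace Pool.Agent.Helper920_ET0L

/-- A table sends each letter to its set of replacement words. -/
abbrev Table (S : Type) := S → Set (List S)

/-- `Rew h x y`: the word `y` arises from `x` by rewriting every letter occurrence once,
simultaneously and independently, by the table `h`. -/
def Rew {S : Type} (h : Table S) : List S → List S → Prop
  | [], y => y = []
  | c :: x, y => ∃ w ∈ h c, ∃ z, Rew h x z ∧ y = w ++ z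

/-- An ET0L system with terminal alphabet `T` (a copy of which lies in the alphabet `S`). -/
structure LSys (T : Type) where
  /-- the alphabet -/
  S : Type
  finS : Finite S
  /-- the set of tables -/
  H : Set (Table S)
  H_fin : H.Finite
  H_ne : H.Nonempty
  val_fin : ∀ h ∈ H, ∀ c, (h c).Finite
  val_ne : ∀ h ∈ H, ∀ c, (h c).Nonempty
  /-- the axiom -/
  ax : List S
  ax_ne : ax ≠ []
  /-- the inclusion of the terminal alphabet -/
  emb : T → S
  emb_inj : Function.Injective emb

namespace LSys

variable {T : Type}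

/-- one derivation step -/
def Step (G : LSys T) (x y : List G.S) : Prop := ∃ h ∈ G.H, Rew h x y

/-- the generated language -/
def lang (G : LSys T) : Set (List T) :=
  {w | Relation.ReflTransGen G.Step G.ax (w.map G.emb)}

/-- at most `k` letters are rewritten by each table -/
def Restricted (k : ℕ) (G : LSys T) : Prop :=
  ∀ h ∈ G.H, {c : G.S | h c ≠ {[c]}}.ncard ≤ k

end LSys

/-- the languages over `T` generated by `k`-restricted ET0L systems -/
def Family (T : Type) (k : ℕ) : Set (Set (List T)) :=
  {L | ∃ G : LSys T, G.Restricted k ∧ G.lang = L}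

section Rew

variable {S : Type} {h : Table S}

@[simp] lemma rew_nil {y : List S} : Rew h [] y ↔ y = [] := Iff.rfl

lemma rew_cons {c : S} {x y : List S} :
    Rew h (c :: x) y ↔ ∃ w ∈ h c, ∃ z, Rew h x z ∧ y = w ++ z := Iff.rfl

lemma rew_append {x x' y : List S} :
    Rew h (x ++ x') y ↔ ∃ y1 y2, Rew h x y1 ∧ Rew h x' y2 ∧ y = y1 ++ y2 := by
  induction x generalizing y with
  | nil =>
    simp
  | cons c x ih =>
    simp only [List.cons_append, rew_cons, ih]
    constructor
    · rintro ⟨w, hw, z, ⟨y1, y2, h1, h2, rfl⟩, rfl⟩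
      exact ⟨w ++ y1, y2, ⟨w, hw, y1, h1, rfl⟩, h2, by simp⟩
    · rintro ⟨y1, y2, ⟨w, hw, z, h1, rfl⟩, h2, rfl⟩
      exact ⟨w, hw, z ++ y2, ⟨z, y2, h1, h2, rfl⟩, by simp⟩

lemma rew_map (f : S → S) {x y : List S} (hx : ∀ c ∈ x, h c = {[f c]}) :
    Rew h x y ↔ y = x.map f := by
  induction x generalizing y with
  | nil => simp
  | cons c x ih =>
    have ih' := fun {y} => ih (y := y) (fun c hc => hx c (List.mem_cons_of_mem _ hc))
    simp only [rew_cons, ih', hx c List.mem_cons_self, Set.mem_singleton_iff]
    constructor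
    · rintro ⟨w, rfl, z, rfl, rfl⟩; simp
    · rintro rfl; exact ⟨_, rfl, _, rfl, by simp⟩

lemma rew_id {x y : List S} (hx : ∀ c ∈ x, h c = {[c]}) : Rew h x y ↔ y = x := by
  have := rew_map (h := h) (fun c => c) (y := y) hx
  simpa using this

lemma rew_mem {x y : List S} {b : S} (hr : Rew h x y) (hb : b ∈ y) :
    ∃ c ∈ x, ∃ w ∈ h c, b ∈ w := by
  induction x generalizing y with
  | nil => simp at hr; subst hr; simp at hb
  | cons c x ih =>
    obtain ⟨w, hw, z, hz, rfl⟩ := hr
    rcases List.mem_append.1 hb with hb | hb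
    · exact ⟨c, List.mem_cons_self, w, hw, hb⟩
    · obtain ⟨c', hc', w', hw', hb'⟩ := ih hz hb
      exact ⟨c', List.mem_cons_of_mem _ hc', w', hw', hb'⟩

lemma rew_mem' {x y : List S} {c : S} (hr : Rew h x y) (hc : c ∈ x) :
    ∃ w ∈ h c, ∀ b ∈ w, b ∈ y := by
  induction x generalizing y with
  | nil => simp at hc
  | cons c' x ih =>
    obtain ⟨w, hw, z, hz, rfl⟩ := hr
    rcases List.mem_cons.1 hc with rfl | hc
    · exact ⟨w, hw, fun b hb => List.mem_append_left _ hb⟩
    · obtain ⟨w', hw', hb'⟩ := ih hz hc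
      exact ⟨w', hw', fun b hb => List.mem_append_right _ (hb' b hb)⟩

/-- The table rewriting only the letter `l` (by `A`). -/
noncomputable def one (l : S) (A : Set (List S)) : Table S :=
  open Classical in fun c => if c = l then A else {[c]}

/-- The table rewriting `l` by `A` and sending the two letters `z1`, `z2` to the trap `F`. -/
noncomputable def mk (F l : S) (A : Set (List S)) (z1 z2 : S) : Table S :=
  open Classical in fun c => if c = l then A else if c = z1 ∨ c = z2 then {[F]} else {[c]}

lemma one_self (l : S) (A : Set (List S)) : one l A l = A := by simp [one]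

lemma one_ne {l c : S} (A : Set (List S)) (hc : c ≠ l) : one l A c = {[c]} := by simp [one, hc]

lemma one_notMem {l : S} {A : Set (List S)} {x y : List S} (hl : l ∉ x) :
    Rew (one l A) x y ↔ y = x :=
  rew_id fun c hc => one_ne A (fun h => hl (h ▸ hc))

/-- replace the letter `l` by `l'` -/
noncomputable def repl (l l' : S) : S → S :=
  open Classical in fun c => if c = l then l' else c

lemma repl_self (l l' : S) : repl l l' l = l' := by simp [repl]

lemma repl_ne {l c : S} (l' : S) (hc : c ≠ l) : repl l l' c = c := by simp [repl, hc]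

lemma one_single {l l' : S} {x y : List S} :
    Rew (one l {[l']}) x y ↔ y = x.map (repl l l') := by
  apply rew_map
  intro c _
  by_cases hc : c = l
  · subst hc; simp [one_self, repl_self]
  · rw [one_ne _ hc, repl_ne _ hc]

lemma one_empty {l : S} {x y : List S} :
    Rew (one l {[]}) x y ↔ y = x.filter (open Classical in fun c => decide (c ≠ l)) := by
  classical
  induction x generalizing y with
  | nil => simp
  | cons c x ih =>
    simp only [rew_cons, ih]
    by_cases hc : c = l
    · subst hc
      simp [one_self]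
    · simp only [one_ne _ hc, Set.mem_singleton_iff]
      constructor
      · rintro ⟨w, rfl, z, rfl, rfl⟩
        simp [hc]
      · rintro rfl
        exact ⟨_, rfl, _, rfl, by simp [hc]⟩

/-- Splitting a step by a table `mk`. -/
lemma mk_split {F l : S} {A : Set (List S)} {z1 z2 : S} {w w' : List S}
    (h1 : z1 ≠ l) (h2 : z2 ≠ l) (hr : Rew (mk F l A z1 z2) w w') :
    F ∈ w' ∨ (z1 ∉ w ∧ z2 ∉ w ∧ Rew (one l A) w w') := by
  classical
  by_cases hz1 : z1 ∈ w
  · left
    obtain ⟨v, hv, hb⟩ := rew_mem' hr hz1
    have : mk F l A z1 z2 z1 = {[F]} := by simp [mk, h1]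
    rw [this] at hv
    rw [Set.mem_singleton_iff] at hv
    subst hv
    exact hb F (by simp)
  by_cases hz2 : z2 ∈ w
  · left
    obtain ⟨v, hv, hb⟩ := rew_mem' hr hz2
    have : mk F l A z1 z2 z2 = {[F]} := by simp [mk, h2]
    rw [this] at hv
    rw [Set.mem_singleton_iff] at hv
    subst hv
    exact hb F (by simp)
  refine Or.inr ⟨hz1, hz2, ?_⟩
  have key : ∀ (v v' : List S), z1 ∉ v → z2 ∉ v → Rew (mk F l A z1 z2) v v' →
      Rew (one l A) v v' := by
    intro v
    induction v with
    | nil => intro v' _ _ hh; exact hh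
    | cons c v ih =>
      intro v' g1 g2 hh
      obtain ⟨u, hu, z, hz, rfl⟩ := hh
      refine ⟨u, ?_, z, ih z (fun h => g1 (List.mem_cons_of_mem _ h))
        (fun h => g2 (List.mem_cons_of_mem _ h)) hz, rfl⟩
      have hc1 : c ≠ z1 := fun h => g1 (h ▸ List.mem_cons_self)
      have hc2 : c ≠ z2 := fun h => g2 (h ▸ List.mem_cons_self)
      by_cases hc : c = l
      · subst hc; simpa [mk, one] using hu
      · simpa [mk, one, hc, hc1, hc2] using hu
  exact key w w' hz1 hz2 hr

/-- The converse: a step of `one` is a step of `mk` if the forbidden letters are absent. -/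
lemma mk_of_one {F l : S} {A : Set (List S)} {z1 z2 : S} {w w' : List S}
    (h1 : z1 ∉ w) (h2 : z2 ∉ w) (hr : Rew (one l A) w w') : Rew (mk F l A z1 z2) w w' := by
  classical
  induction w generalizing w' with
  | nil => exact hr
  | cons c v ih =>
    obtain ⟨u, hu, z, hz, rfl⟩ := hr
    refine ⟨u, ?_, z, ih (fun h => h1 (List.mem_cons_of_mem _ h))
      (fun h => h2 (List.mem_cons_of_mem _ h)) hz, rfl⟩
    have hc1 : c ≠ z1 := fun h => h1 (h ▸ List.mem_cons_self)
    have hc2 : c ≠ z2 := fun h => h2 (h ▸ List.mem_cons_self)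
    by_cases hc : c = l
    · subst hc; simpa [mk, one] using hu
    · simpa [mk, one, hc, hc1, hc2] using hu

lemma mk_F {F l : S} {A : Set (List S)} {z1 z2 : S} {w w' : List S}
    (hF : F ≠ l) (hr : Rew (mk F l A z1 z2) w w') (hw : F ∈ w) : F ∈ w' := by
  classical
  obtain ⟨v, hv, hb⟩ := rew_mem' hr hw
  have : mk F l A z1 z2 F = {[F]} := by simp [mk, hF]
  rw [this, Set.mem_singleton_iff] at hv
  subst hv
  exact hb F (by simp)

lemma mk_ncard [Finite S] (F l : S) (A : Set (List S)) (z1 z2 : S) :
    {c : S | mk F l A z1 z2 c ≠ {[c]}}.ncard ≤ 3 := by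
  classical
  have hsub : {c : S | mk F l A z1 z2 c ≠ {[c]}} ⊆ ({l, z1, z2} : Set S) := by
    intro c hc
    by_contra hn
    simp only [Set.mem_insert_iff, Set.mem_singleton_iff, not_or] at hn
    apply hc
    simp [mk, hn.1, hn.2.1, hn.2.2]
  calc _ ≤ ({l, z1, z2} : Set S).ncard := Set.ncard_le_ncard hsub (Set.toFinite _)
    _ ≤ 3 := by
      have h1 := Set.ncard_insert_le l ({z1, z2} : Set S)
      have h2 := Set.ncard_insert_le z1 ({z2} : Set S)
      have h3 := Set.ncard_singleton z2
      omega

end Rew

end Pool.Agent.Helper920_ET0L
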