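import Pool.Agent.Helper920_ET0L.Sound

/-! Completeness of the simulating 3-restricted system. -/

namespace Pool.Agent.Helper920_ET0L

open Relation Lt

variable {Γ T : Type} {N : ℕ}

/-- one step of the simulating system -/
def GStep (hb : Bool → Γ → Set (List (Γ ⊕ T))) (e : Γ ≃ Fin (N + 1))
    (w w' : List (Lt Γ T N)) : Prop :=
  ∃ l A z1 z2, Rule hb e l A z1 z2 ∧ Rew (mk F l A z1 z2) w w'

variable {hb : Bool → Γ → Set (List (Γ ⊕ T))} {e : Γ ≃ Fin (N + 1)}

lemma gstep_ctl {p q : List (Lt Γ T N)} {l l' z1 z2 : Lt Γ T N}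
    (hR : Rule hb e l {[l']} z1 z2) (hp : ∀ l ∈ p, isPop l) (hl : ¬ isPop l)
    (h1 : z1 ∉ p ++ q) (h2 : z2 ∉ p ++ q) :
    GStep hb e (p ++ q) (p ++ q.map (repl l l')) := by
  refine ⟨l, _, z1, z2, hR, mk_of_one h1 h2 ?_⟩
  rw [rew_append]
  exact ⟨p, _, (one_notMem (notMem_pop hp hl)).2 rfl, one_single.2 rfl, rfl⟩

lemma notMem_app {p q : List (Lt Γ T N)} {l : Lt Γ T N} (hp : ∀ l ∈ p, isPop l)
    (hl : ¬ isPop l) (hq : l ∉ q) : l ∉ p ++ q := by
  rw [List.mem_append]
  rintro (h | h)
  · exact hl (hp _ h)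
  · exact hq h

lemma hA0 : (A0 : Lt Γ T N) = A0 ∨ (A0 : Lt Γ T N) = A1 ∨ (A0 : Lt Γ T N) = As := Or.inl rfl
lemma hA1 : (A1 : Lt Γ T N) = A0 ∨ (A1 : Lt Γ T N) = A1 ∨ (A1 : Lt Γ T N) = As :=
  Or.inr (Or.inl rfl)
lemma hAs : (As : Lt Γ T N) = A0 ∨ (As : Lt Γ T N) = A1 ∨ (As : Lt Γ T N) = As :=
  Or.inr (Or.inr rfl)

section

variable {p q : List (Lt Γ T N)} {σ : Fin (N + 1) → Bool} {j : Bool}

lemma c_up0 (hp : ∀ l ∈ p, isPop l) (hS : Sup q A0 σ j) (hN : σ (Fin.last N) = false) :
    ∃ q', Sup q' A1 σ j ∧ GStep hb e (p ++ q) (p ++ q') := by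
  refine ⟨_, hS.repl_a hA0 A1, gstep_ctl Rule.up0 hp (by simp [isPop]) ?_ ?_⟩ <;>
  · apply notMem_app hp (by simp [isPop])
    rw [hS.iff_W hA0, hN]
    simp

lemma c_down0 (hp : ∀ l ∈ p, isPop l) (hS : Sup q A1 σ j) (hN : σ (Fin.last N) = true) :
    ∃ q', Sup q' A0 σ j ∧ GStep hb e (p ++ q) (p ++ q') := by
  refine ⟨_, hS.repl_a hA1 A0, gstep_ctl Rule.down0 hp (by simp [isPop]) ?_ ?_⟩ <;>
  · apply notMem_app hp (by simp [isPop])
    rw [hS.iff_W hA1, hN]
    simp

lemma c_stop (hp : ∀ l ∈ p, isPop l) (hS : Sup q A1 σ j) (hN : σ (Fin.last N) = true) :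
    ∃ q', Sup q' As σ j ∧ GStep hb e (p ++ q) (p ++ q') := by
  refine ⟨_, hS.repl_a hA1 As, gstep_ctl Rule.stop hp (by simp [isPop]) ?_ ?_⟩ <;>
  · apply notMem_app hp (by simp [isPop])
    rw [hS.iff_W hA1, hN]
    simp

lemma c_jop (hp : ∀ l ∈ p, isPop l) (hS : Sup q A0 σ j) (b : Bool) :
    ∃ q', Sup q' A0 σ b ∧ ReflTransGen (GStep hb e) (p ++ q) (p ++ q') := by
  by_cases hbj : b = j
  · subst hbj; exact ⟨q, hS, .refl⟩
  · have hb' : b = !j := by cases b <;> cases j <;> simp_all
    subst hb'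
    refine ⟨_, hS.repl_J hA0 _, .single (gstep_ctl (Rule.jop j) hp (by simp [isPop]) ?_ ?_)⟩ <;>
    · apply notMem_app hp (by simp [isPop])
      rw [hS]; simp

lemma c_up (hp : ∀ l ∈ p, isPop l) (hx : ∀ c, x c ∉ p) (hS : Sup q A1 σ j) (i : Fin (N + 1))
    (hi : σ i = false) (hprev : ∀ _ : i.val ≠ 0, σ ⟨i.val - 1, by omega⟩ = true) :
    ∃ q', Sup q' A1 (Function.update σ i true) j ∧ GStep hb e (p ++ q) (p ++ q') := by
  refine ⟨_, hS.repl_W hA1 i false true hi,
    gstep_ctl (Rule.up i) hp (by simp [isPop]) ?_ ?_⟩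
  · by_cases h0 : i.val = 0
    · rw [prevW_zero _ _ h0]
      apply notMem_app hp (by simp [isPop])
      rw [hS]; simp
    · rw [prevW_pos _ _ h0]
      apply notMem_app hp (by simp [isPop])
      rw [hS.iff_W hA1, hprev h0]; simp
  · rw [List.mem_append]
    rintro (h | h)
    · exact hx _ h
    · exact absurd (hS.ctl hA1 _ h) (by simp [isCtl])

lemma c_down {a : Lt Γ T N} (ha : a = A0 ∨ a = As) (hp : ∀ l ∈ p, isPop l)
    (hy : ∀ c, y c ∉ p) (hS : Sup q a σ j) (i : Fin (N + 1))
    (hi : σ i = true) (hprev : ∀ _ : i.val ≠ 0, σ ⟨i.val - 1, by omega⟩ = false) :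
    ∃ q', Sup q' a (Function.update σ i false) j ∧ GStep hb e (p ++ q) (p ++ q') := by
  have hA : a = A0 ∨ a = A1 ∨ a = As := by tauto
  refine ⟨_, hS.repl_W hA i true false hi,
    gstep_ctl (Rule.down i) hp (by simp [isPop]) ?_ ?_⟩
  · by_cases h0 : i.val = 0
    · rw [prevW_zero _ _ h0]
      apply notMem_app hp (by simp [isPop])
      rw [hS]; rcases ha with rfl | rfl <;> simp
    · rw [prevW_pos _ _ h0]
      apply notMem_app hp (by simp [isPop])
      rw [hS.iff_W hA, hprev h0]; simp
  · rw [List.mem_append]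
    rintro (h | h)
    · exact hy _ h
    · exact absurd (hS.ctl hA _ h) (by simp [isCtl])

lemma wave_up (hp : ∀ l ∈ p, isPop l) (hx : ∀ c, x c ∉ p)
    (hS : Sup q A1 (fun _ => false) j) :
    ∃ q', Sup q' A1 (fun _ => true) j ∧ ReflTransGen (GStep hb e) (p ++ q) (p ++ q') := by
  have key : ∀ k ≤ N + 1, ∃ q', Sup q' A1 (fun i => decide (i.val < k)) j ∧
      ReflTransGen (GStep hb e) (p ++ q) (p ++ q') := by
    intro k
    induction k with
    | zero =>
      intro _
      refine ⟨q, ?_, .refl⟩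
      simpa using hS
    | succ k ih =>
      intro hk
      obtain ⟨q', hS', hr⟩ := ih (by omega)
      obtain ⟨q'', hS'', hs⟩ := c_up (hb := hb) (e := e) hp hx hS' ⟨k, by omega⟩
        (by simp) (by intro h; simp at h ⊢; omega)
      refine ⟨q'', ?_, hr.tail hs⟩
      convert hS'' using 1
      funext i
      by_cases hi : i = ⟨k, by omega⟩
      · subst hi; simp
      · rw [Function.update_of_ne hi]
        have : i.val ≠ k := fun h => hi (Fin.ext h)
        simp only [decide_eq_decide]
        omega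
  obtain ⟨q', hS', hr⟩ := key (N + 1) le_rfl
  refine ⟨q', ?_, hr⟩
  convert hS' using 1
  funext i
  have := i.isLt
  simp
  omega

lemma wave_down {a : Lt Γ T N} (ha : a = A0 ∨ a = As) (hp : ∀ l ∈ p, isPop l)
    (hy : ∀ c, y c ∉ p) (hS : Sup q a (fun _ => true) j) :
    ∃ q', Sup q' a (fun _ => false) j ∧ ReflTransGen (GStep hb e) (p ++ q) (p ++ q') := by
  have key : ∀ k ≤ N + 1, ∃ q', Sup q' a (fun i => decide (k ≤ i.val)) j ∧
      ReflTransGen (GStep hb e) (p ++ q) (p ++ q') := by
    intro k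
    induction k with
    | zero =>
      intro _
      refine ⟨q, ?_, .refl⟩
      simpa using hS
    | succ k ih =>
      intro hk
      obtain ⟨q', hS', hr⟩ := ih (by omega)
      obtain ⟨q'', hS'', hs⟩ := c_down (hb := hb) (e := e) ha hp hy hS' ⟨k, by omega⟩
        (by simp) (by intro h; simp at h ⊢; omega)
      refine ⟨q'', ?_, hr.tail hs⟩
      convert hS'' using 1
      funext i
      by_cases hi : i = ⟨k, by omega⟩
      · subst hi; simp
      · rw [Function.update_of_ne hi]
        have : i.val ≠ k := fun h => hi (Fin.ext h)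
        simp only [decide_eq_decide]
        omega
  obtain ⟨q', hS', hr⟩ := key (N + 1) le_rfl
  refine ⟨q', ?_, hr⟩
  convert hS' using 1
  funext i
  have := i.isLt
  simp
  omega

end

/-- choices made by a step of a table -/
lemma rew_pairs {S : Type} {h : Table S} {u v : List S} (hr : Rew h u v) :
    ∃ L : List (S × List S), L.map Prod.fst = u ∧ (∀ c ∈ L, c.2 ∈ h c.1) ∧
      v = L.flatMap Prod.snd := by
  induction u generalizing v with
  | nil => exact ⟨[], rfl, by simp, by simpa using hr⟩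
  | cons c u ih =>
    obtain ⟨w, hw, z, hz, rfl⟩ := hr
    obtain ⟨L, h1, h2, rfl⟩ := ih hz
    refine ⟨(c, w) :: L, by simp [h1], ?_, by simp⟩
    intro d hd
    rcases List.mem_cons.1 hd with rfl | hd
    · exact hw
    · exact h2 d hd

/-- population after treating the letters of index below `k` -/
def pk (e : Γ ≃ Fin (N + 1)) (k : ℕ) : List ((Γ ⊕ T) × List (Γ ⊕ T)) → List (Lt Γ T N) :=
  List.flatMap fun d =>
    match d.1 with
    | .inl c => if (e c).val < k then ys d.2 else [x c]
    | .inr a => [t a]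

lemma pk_cons_inl (k : ℕ) (c : Γ) (w : List (Γ ⊕ T)) (L) :
    pk e k ((.inl c, w) :: L) = (if (e c).val < k then ys w else [x c]) ++ pk e k L := by
  simp [pk]

lemma pk_cons_inr (k : ℕ) (a : T) (w : List (Γ ⊕ T)) (L) :
    pk e k ((.inr a, w) :: L) = t a :: pk e k L := by
  simp [pk]

lemma pk_step {b : Bool} {L : List ((Γ ⊕ T) × List (Γ ⊕ T))}
    (hL : ∀ c ∈ L, c.2 ∈ STab hb b c.1) (k : Fin (N + 1)) :
    Rew (one (x (e.symm k)) (ys '' hb b (e.symm k))) (pk e k.val L) (pk e (k.val + 1) L) := by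
  induction L with
  | nil => simp [pk]
  | cons d L ih =>
    have ih' := ih (fun c hc => hL c (List.mem_cons_of_mem _ hc))
    obtain ⟨a, w⟩ := d
    have hw := hL _ List.mem_cons_self
    cases a with
    | inr a =>
      rw [pk_cons_inr, pk_cons_inr]
      exact ⟨[t a], by rw [one_ne _ (by simp)]; rfl, _, ih', rfl⟩
    | inl c =>
      rw [pk_cons_inl, pk_cons_inl, rew_append]
      refine ⟨_, _, ?_, ih', rfl⟩
      by_cases h1 : (e c).val < k.val
      · rw [if_pos h1, if_pos (by omega)]
        rw [one_notMem (fun hc => (pop_ys hc).2 _ rfl)]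
      · by_cases h2 : (e c).val = k.val
        · rw [if_neg h1, if_pos (by omega)]
          have hck : c = e.symm k := by
            rw [Equiv.eq_symm_apply]; exact Fin.ext h2
          subst hck
          refine ⟨ys w, ?_, [], rfl, by simp⟩
          rw [one_self]
          exact ⟨w, hw, rfl⟩
        · rw [if_neg h1, if_neg (by omega), one_notMem]
          simp only [List.mem_singleton, x.injEq]
          rintro rfl
          exact h2 (by simp)

lemma pk_zero (L : List ((Γ ⊕ T) × List (Γ ⊕ T))) : pk e 0 L = xs (L.map Prod.fst) := by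
  induction L with
  | nil => rfl
  | cons d L ih =>
    obtain ⟨a, w⟩ := d
    cases a with
    | inr a => rw [pk_cons_inr, ih]; rfl
    | inl c => rw [pk_cons_inl, ih]; simp [xs]

lemma ys_append (u v : List (Γ ⊕ T)) : (ys (u ++ v) : List (Lt Γ T N)) = ys u ++ ys v := by
  simp [ys]

lemma pk_last {b : Bool} {L : List ((Γ ⊕ T) × List (Γ ⊕ T))}
    (hL : ∀ c ∈ L, c.2 ∈ STab hb b c.1) : pk e (N + 1) L = ys (L.flatMap Prod.snd) := by
  induction L with
  | nil => rfl
  | cons d L ih =>
    have ih' := ih (fun c hc => hL c (List.mem_cons_of_mem _ hc))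
    obtain ⟨a, w⟩ := d
    have hw := hL _ List.mem_cons_self
    cases a with
    | inr a =>
      rw [pk_cons_inr, ih']
      simp only [STab, Set.mem_singleton_iff] at hw
      subst hw
      simp [ys]
    | inl c =>
      rw [pk_cons_inl, ih', if_pos (e c).isLt]
      simp [ys]

/-- all occurrences are rewritten and primed -/
lemma wave_x {q : List (Lt Γ T N)} {σ : Fin (N + 1) → Bool} {b : Bool}
    (hS : Sup q A1 σ b) {u u' : List (Γ ⊕ T)} (hr : Rew (STab hb b) u u') :
    ReflTransGen (GStep hb e) (xs u ++ q) (ys u' ++ q) := by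
  obtain ⟨L, rfl, hL, rfl⟩ := rew_pairs hr
  have hpop : ∀ k, ∀ l ∈ pk e k L, isPop l := by
    intro k l hl
    simp only [pk, List.mem_flatMap] at hl
    obtain ⟨⟨a, w⟩, _, hl⟩ := hl
    cases a with
    | inr a => simp at hl; subst hl; trivial
    | inl c =>
      simp only at hl
      split_ifs at hl
      · exact (pop_ys hl).1
      · simp at hl; subst hl; trivial
  have key : ∀ k ≤ N + 1, ReflTransGen (GStep hb e) (xs (L.map Prod.fst) ++ q) (pk e k L ++ q) := by
    intro k
    induction k with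
    | zero => intro _; rw [pk_zero]
    | succ k ih =>
      intro hk
      refine (ih (by omega)).tail ⟨_, _, _, _, Rule.xop b (e.symm ⟨k, by omega⟩), ?_⟩
      apply mk_of_one
      · apply notMem_app (hpop k) (by simp [isPop])
        rw [hS]; simp
      · apply notMem_app (hpop k) (by simp [isPop])
        rw [hS.iff_J hA1]
        simp
      · rw [rew_append]
        refine ⟨_, _, pk_step hL ⟨k, by omega⟩, ?_, rfl⟩
        rw [one_notMem]
        intro h
        exact absurd (hS.ctl hA1 _ h) (by simp [isCtl])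
  rw [← pk_last hL]
  exact key (N + 1) le_rfl

/-- primes are removed -/
lemma wave_y {q : List (Lt Γ T N)} {σ : Fin (N + 1) → Bool} {b : Bool}
    (hS : Sup q A0 σ b) (u : List (Γ ⊕ T)) :
    ReflTransGen (GStep hb e) (ys u ++ q) (xs u ++ q) := by
  have key : ∀ k ≤ N + 1, ReflTransGen (GStep hb e) (ys u ++ q)
      (u.map (Sum.elim (fun c => if (e c).val < k then x c else y c) t) ++ q) := by
    intro k
    induction k with
    | zero => intro _; simp [ys]; exact .refl
    | succ k ih =>
      intro hk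
      have hpop : ∀ l ∈ u.map (Sum.elim (fun c => if (e c).val < k then x c else y c)
          (t : T → Lt Γ T N)), isPop l := by
        intro l hl
        rw [List.mem_map] at hl
        obtain ⟨a, _, rfl⟩ := hl
        cases a with
        | inr a => trivial
        | inl c => simp only [Sum.elim_inl]; split_ifs <;> trivial
      refine (ih (by omega)).tail ⟨_, _, _, _, Rule.yop (e.symm ⟨k, by omega⟩), ?_⟩
      apply mk_of_one
      · apply notMem_app hpop (by simp [isPop])
        rw [hS]; simp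
      · apply notMem_app hpop (by simp [isPop])
        rw [hS]; simp
      · rw [rew_append]
        refine ⟨_, q, one_single.2 ?_, ?_, rfl⟩
        · rw [List.map_map]
          apply List.map_congr_left
          intro a _
          cases a with
          | inr a =>
            simp only [Sum.elim_inr, Function.comp]
            rw [repl_ne _ (by simp)]
          | inl c =>
            simp only [Sum.elim_inl, Function.comp]
            by_cases h1 : (e c).val < k
            · rw [if_pos h1, if_pos (by omega), repl_ne _ (by simp)]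
            · by_cases h2 : (e c).val = k
              · have hck : c = e.symm ⟨k, by omega⟩ := by
                  rw [Equiv.eq_symm_apply]; exact Fin.ext h2
                rw [if_neg h1, if_pos (by omega), ← hck, repl_self]
              · rw [if_neg h1, if_neg (by omega), repl_ne]
                simp only [ne_eq, y.injEq]
                rintro rfl
                exact h2 (by simp)
        · rw [one_notMem]
          intro h
          exact absurd (hS.ctl hA0 _ h) (by simp [isCtl])
  have := key (N + 1) le_rfl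
  convert this using 2
  unfold xs
  apply List.map_congr_left
  intro a _
  cases a with
  | inr a => rfl
  | inl c =>
    simp only [Sum.elim_inl]
    rw [if_pos (e c).isLt]

lemma xs_pop (u : List (Γ ⊕ T)) : ∀ l ∈ (xs u : List (Lt Γ T N)), isPop l :=
  fun _ hl => (pop_xs hl).1

lemma ys_pop (u : List (Γ ⊕ T)) : ∀ l ∈ (ys u : List (Lt Γ T N)), isPop l :=
  fun _ hl => (pop_ys hl).1

/-- one round of the simulation -/
lemma sim_round {q : List (Lt Γ T N)} {j b : Bool} (hS : Sup q A0 (fun _ => false) j)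
    {u u' : List (Γ ⊕ T)} (hr : Rew (STab hb b) u u') :
    ∃ q', Sup q' A0 (fun _ => false) b ∧
      ReflTransGen (GStep hb e) (xs u ++ q) (xs u' ++ q') := by
  obtain ⟨q1, hS1, r1⟩ := c_jop (hb := hb) (e := e) (xs_pop u) hS b
  obtain ⟨q2, hS2, r2⟩ := c_up0 (hb := hb) (e := e) (xs_pop u) hS1 rfl
  have r3 := wave_x (e := e) hS2 hr
  obtain ⟨q4, hS4, r4⟩ := wave_up (hb := hb) (e := e) (ys_pop u')
    (fun c hc => (pop_ys hc).2 c rfl) hS2
  obtain ⟨q5, hS5, r5⟩ := c_down0 (hb := hb) (e := e) (ys_pop u') hS4 rfl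
  have r6 := wave_y (hb := hb) (e := e) hS5 u'
  obtain ⟨q7, hS7, r7⟩ := wave_down (hb := hb) (e := e) (Or.inl rfl) (xs_pop u')
    (fun c hc => (pop_xs hc).2 c rfl) hS5
  exact ⟨q7, hS7, r1.trans ((ReflTransGen.single r2).trans (r3.trans (r4.trans
    ((ReflTransGen.single r5).trans (r6.trans r7)))))⟩

lemma sim_many {q : List (Lt Γ T N)} {j : Bool} (hS : Sup q A0 (fun _ => false) j)
    {u u' : List (Γ ⊕ T)} (hr : ReflTransGen (SStep hb) u u') :
    ∃ q' b, Sup q' A0 (fun _ => false) b ∧
      ReflTransGen (GStep hb e) (xs u ++ q) (xs u' ++ q') := by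
  induction hr with
  | refl => exact ⟨q, j, hS, .refl⟩
  | tail _ h ih =>
    obtain ⟨q', b, hS', r⟩ := ih
    obtain ⟨b', h'⟩ := h
    obtain ⟨q'', hS'', r'⟩ := sim_round (e := e) hS' h'
    exact ⟨q'', b', hS'', r.trans r'⟩

lemma erase_all {p : List (Lt Γ T N)} (hp : ∀ l ∈ p, isPop l) (n : ℕ) :
    ∀ q : List (Lt Γ T N), q.length ≤ n → (∀ l ∈ q, isCtl l ∧ ∀ b, l ≠ W (Fin.last N) b) →
      ReflTransGen (GStep hb e) (p ++ q) p := by
  classical
  induction n with
  | zero =>
    intro q hq _
    have : q = [] := List.eq_nil_of_length_eq_zero (by omega)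
    subst this
    rw [List.append_nil]
  | succ n ih =>
    intro q hq hc
    cases q with
    | nil => rw [List.append_nil]
    | cons l q =>
      have hl := hc l List.mem_cons_self
      have hnp : ¬ isPop l := by
        have := hl.1
        cases l <;> simp_all [isPop, isCtl]
      have hstep : GStep hb e (p ++ l :: q) (p ++ q.filter (fun c => decide (c ≠ l))) := by
        refine ⟨l, {[]}, _, _, Rule.erase l hl.1 hl.2, ?_⟩
        apply mk_of_one
        · apply notMem_app hp (by simp [isPop])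
          intro h; exact (hc _ h).2 _ rfl
        · apply notMem_app hp (by simp [isPop])
          intro h; exact (hc _ h).2 _ rfl
        · rw [rew_append]
          refine ⟨p, _, (one_notMem (notMem_pop hp hnp)).2 rfl, one_empty.2 rfl, ?_⟩
          congr 1
          rw [List.filter_cons_of_neg (by simp)]
      refine ReflTransGen.head hstep (ih _ ?_ ?_)
      · have := List.length_filter_le (fun c => decide (c ≠ l)) q
        simp only [List.length_cons] at hq
        omega
      · intro c hcq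
        exact hc c (List.mem_cons_of_mem _ (List.mem_of_mem_filter hcq))

/-- the final phase -/
lemma sim_final {q : List (Lt Γ T N)} {j : Bool} (hS : Sup q A0 (fun _ => false) j)
    (w : List T) :
    ReflTransGen (GStep hb e) (xs (w.map Sum.inr) ++ q) (w.map t) := by
  classical
  have hxs : (xs (w.map Sum.inr) : List (Lt Γ T N)) = w.map t := by simp [xs]
  rw [hxs]
  have hp : ∀ l ∈ (w.map t : List (Lt Γ T N)), isPop l := by
    intro l hl
    rw [List.mem_map] at hl
    obtain ⟨a, _, rfl⟩ := hl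
    trivial
  have hx : ∀ c, (x c : Lt Γ T N) ∉ (w.map t : List (Lt Γ T N)) := by simp
  have hy : ∀ c, (y c : Lt Γ T N) ∉ (w.map t : List (Lt Γ T N)) := by simp
  obtain ⟨q1, hS1, r1⟩ := c_up0 (hb := hb) (e := e) hp hS rfl
  obtain ⟨q2, hS2, r2⟩ := wave_up (hb := hb) (e := e) hp hx hS1
  obtain ⟨q3, hS3, r3⟩ := c_stop (hb := hb) (e := e) hp hS2 rfl
  obtain ⟨q4, hS4, r4⟩ := wave_down (hb := hb) (e := e) (Or.inr rfl) hp hy hS3
  have hstep : GStep hb e (w.map t ++ q4)
      (w.map t ++ q4.filter (fun c => decide (c ≠ W (Fin.last N) false))) := by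
    refine ⟨_, {[]}, _, _, Rule.eraseN, ?_⟩
    apply mk_of_one
    · apply notMem_app hp (by simp [isPop])
      rw [hS4]; simp
    · apply notMem_app hp (by simp [isPop])
      rw [hS4]; simp
    · rw [rew_append]
      exact ⟨_, _, (one_notMem (notMem_pop hp (by simp [isPop]))).2 rfl, one_empty.2 rfl, rfl⟩
  refine (ReflTransGen.single r1).trans (r2.trans ((ReflTransGen.single r3).trans (r4.trans
    (ReflTransGen.head hstep (erase_all hp _ _ le_rfl ?_)))))
  intro l hl
  rw [List.mem_filter] at hl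
  refine ⟨hS4.ctl hAs _ hl.1, ?_⟩
  rintro b rfl
  have h1 := hl.1
  rw [hS4.iff_W hAs] at h1
  subst h1
  simp at hl

end Pool.Agent.Helper920_ET0L
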