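import Pool.Agent.Helper920_ET0L.Compl

/-! Every ET0L language is generated by a 3-restricted ET0L system. -/

namespace Pool.Agent.Helper920_ET0L

open Relation Lt

section Two

variable {Γ T : Type} {N : ℕ}

/-- the ring letters at the start -/
def q0 : List (Lt Γ T N) := A0 :: J true :: List.ofFn (fun i => W i false)

lemma sup_q0 : Sup (q0 : List (Lt Γ T N)) A0 (fun _ => false) true := by
  intro l
  simp only [q0, List.mem_cons, List.mem_ofFn]
  constructor
  · rintro (h | h | ⟨i, rfl⟩)
    · exact Or.inl h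
    · exact Or.inr (Or.inr h)
    · exact Or.inr (Or.inl ⟨i, rfl⟩)
  · rintro (h | ⟨i, rfl⟩ | h)
    · exact Or.inl h
    · exact Or.inr (Or.inr ⟨i, rfl⟩)
    · exact Or.inr (Or.inl h)

variable (hb : Bool → Γ → Set (List (Γ ⊕ T))) (e : Γ ≃ Fin (N + 1))

/-- possible right-hand sides of rules -/
def RHS : Set (Set (List (Lt Γ T N))) :=
  Set.range (fun l => {[l]}) ∪ {{[]}} ∪ Set.range (fun d : Bool × Γ => ys '' hb d.1 d.2)

lemma Rule.rhs {l : Lt Γ T N} {A : Set (List (Lt Γ T N))} {z1 z2 : Lt Γ T N}
    (h : Rule hb e l A z1 z2) : A ∈ RHS (N := N) hb := by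
  unfold RHS
  cases h with
  | xop b c => exact Or.inr ⟨(b, c), rfl⟩
  | eraseN => exact Or.inl (Or.inr rfl)
  | erase l hl hl' => exact Or.inl (Or.inr rfl)
  | _ => exact Or.inl (Or.inl ⟨_, rfl⟩)

/-- The simulating system. -/
noncomputable def sim [Finite Γ] [Finite T] (hfin : ∀ b c, (hb b c).Finite)
    (hne : ∀ b c, (hb b c).Nonempty) (ax0 : List (Γ ⊕ T)) : LSys T where
  S := Lt Γ T N
  finS := inferInstance
  H := {h | ∃ l A z1 z2, Rule hb e l A z1 z2 ∧ h = mk F l A z1 z2}
  H_fin := by
    have hR : (RHS (N := N) hb).Finite := by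
      unfold RHS
      exact ((Set.finite_range _).union (Set.finite_singleton _)).union (Set.finite_range _)
    have : ((Set.univ : Set (Lt Γ T N)) ×ˢ (RHS (N := N) hb) ×ˢ (Set.univ : Set (Lt Γ T N)) ×ˢ
        (Set.univ : Set (Lt Γ T N))).Finite :=
      Set.finite_univ.prod (hR.prod (Set.finite_univ.prod Set.finite_univ))
    refine (this.image (fun d => mk F d.1 d.2.1 d.2.2.1 d.2.2.2)).subset ?_
    rintro h ⟨l, A, z1, z2, hr, rfl⟩
    exact ⟨(l, A, z1, z2), ⟨trivial, hr.rhs, trivial, trivial⟩, rfl⟩
  H_ne := ⟨_, _, _, _, _, Rule.up0, rfl⟩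
  val_fin := by
    classical
    rintro h ⟨l, A, z1, z2, hr, rfl⟩ c
    have hA : A.Finite := by
      cases hr with
      | xop b c => exact (hfin b c).image _
      | _ => exact Set.finite_singleton _
    unfold mk
    split_ifs
    · exact hA
    · exact Set.finite_singleton _
    · exact Set.finite_singleton _
  val_ne := by
    classical
    rintro h ⟨l, A, z1, z2, hr, rfl⟩ c
    have hA : A.Nonempty := by
      cases hr with
      | xop b c => exact (hne b c).image _
      | _ => exact Set.singleton_nonempty _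
    unfold mk
    split_ifs
    · exact hA
    · exact Set.singleton_nonempty _
    · exact Set.singleton_nonempty _
  ax := xs ax0 ++ q0
  ax_ne := by simp [q0]
  emb := t
  emb_inj := by
    intro a b h
    simpa using h

variable [Finite Γ] [Finite T] (hfin : ∀ b c, (hb b c).Finite)
    (hne : ∀ b c, (hb b c).Nonempty) (ax0 : List (Γ ⊕ T))

lemma sim_restricted : (sim hb e hfin hne ax0).Restricted 3 := by
  have := (sim hb e hfin hne ax0).finS
  rintro h ⟨l, A, z1, z2, _, rfl⟩
  exact mk_ncard _ _ _ _ _

lemma sim_step {w w' : List (Lt Γ T N)} :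
    (sim hb e hfin hne ax0).Step w w' ↔ GStep hb e w w' := by
  constructor
  · rintro ⟨h, ⟨l, A, z1, z2, hr, rfl⟩, hw⟩
    exact ⟨l, A, z1, z2, hr, hw⟩
  · rintro ⟨l, A, z1, z2, hr, hw⟩
    exact ⟨_, ⟨l, A, z1, z2, hr, rfl⟩, hw⟩

lemma sim_lang : (sim hb e hfin hne ax0).lang =
    {w | ReflTransGen (SStep hb) ax0 (w.map Sum.inr)} := by
  have hst : (sim hb e hfin hne ax0).Step = GStep hb e := by
    funext w w'
    exact propext (sim_step hb e hfin hne ax0)
  ext w
  simp only [LSys.lang, Set.mem_ofPred_eq]
  rw [hst]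
  constructor
  · intro h
    have hinv : ∀ v : List (Lt Γ T N), ReflTransGen (GStep hb e) (xs ax0 ++ q0) v →
        Inv hb e (fun u => ReflTransGen (SStep hb) ax0 u) v := by
      intro v hv
      induction hv with
      | refl =>
        refine Or.inr ⟨xs ax0, q0, rfl, xs_pop ax0, Or.inl ⟨_, _, sup_q0, ?_, ?_⟩⟩
        · intro i _ i' _
          exact ⟨rfl, fun h => (pop_xs h).2 _ rfl⟩
        · rw [up_xs]
      | tail _ hs ih =>
        obtain ⟨l, A, z1, z2, hr, hw⟩ := hs
        exact ih.step (fun u v hu hv => hu.tail hv) hr hw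
    exact (hinv _ h).terminal
  · intro h
    obtain ⟨q', b, hS, hr⟩ := sim_many (e := e) (sup_q0 (Γ := Γ) (T := T) (N := N)) h
    exact hr.trans (sim_final hS w)

end Two

section General

variable {T : Type} (G : LSys T)

/-- The table number `s` of an enumeration of the tables of `G`, together with the two
stage-changing tables: `true` applies the current table, `false` passes to the next stage. -/
noncomputable def two {m : ℕ} (g : Fin m → Table G.S) :
    Bool → (G.S × Fin (m + 1)) → Set (List ((G.S × Fin (m + 1)) ⊕ T)) :=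
  open Classical in fun b d =>
  if hd : d.2.val < m then
    match b with
    | true => (fun w : List G.S => w.map (fun c => (.inl (c, 0) : (G.S × Fin (m + 1)) ⊕ T))) ''
        g ⟨d.2.val, hd⟩ d.1
    | false => {[.inl (d.1, ⟨d.2.val + 1, by omega⟩)]}
  else
    match b with
    | true => if h : ∃ a, G.emb a = d.1 then {[.inr h.choose]} else {[.inl d]}
    | false => {[.inl d]}


variable {G}

/-- a word all of whose letters are at stage `s` -/
def st {m : ℕ} (s : Fin (m + 1)) (u : List G.S) : List ((G.S × Fin (m + 1)) ⊕ T) :=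
  u.map (fun c => .inl (c, s))

/-- final letter of a letter -/
noncomputable def fl {m : ℕ} (c : G.S) : (G.S × Fin (m + 1)) ⊕ T :=
  open Classical in if h : ∃ a, G.emb a = c then .inr h.choose else .inl (c, Fin.last m)

lemma fl_emb {m : ℕ} (a : T) : (fl (G.emb a) : (G.S × Fin (m + 1)) ⊕ T) = .inr a := by
  have h : ∃ a', G.emb a' = G.emb a := ⟨a, rfl⟩
  rw [fl, dif_pos h]
  exact congrArg _ (G.emb_inj h.choose_spec)

lemma fl_inr {m : ℕ} {c : G.S} {a : T} (h : (fl c : (G.S × Fin (m + 1)) ⊕ T) = .inr a) :
    c = G.emb a := by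
  unfold fl at h
  split_ifs at h with h'
  · rw [← Sum.inr.inj h]
    exact h'.choose_spec.symm

variable {m : ℕ} {g : Fin m → Table G.S}

lemma rew_st_true {s : Fin (m + 1)} (hs : s.val < m) {u : List G.S} {v} :
    Rew (STab (two G g) true) (st s u) v ↔ ∃ u', Rew (g ⟨s.val, hs⟩) u u' ∧ v = st 0 u' := by
  induction u generalizing v with
  | nil =>
    constructor
    · intro h; exact ⟨[], rfl, h⟩
    · rintro ⟨u', h, rfl⟩
      rw [rew_nil] at h; subst h; rfl
  | cons c u ih =>
    have h2 : STab (two G g) true (.inl (c, s)) =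
        (fun w : List G.S => w.map (fun c => (.inl (c, 0) : (G.S × Fin (m + 1)) ⊕ T))) ''
        g ⟨s.val, hs⟩ c := by
      simp [STab, two, hs]
    constructor
    · rintro ⟨w, hw, z, hz, rfl⟩
      rw [h2] at hw
      obtain ⟨w', hw', rfl⟩ := hw
      obtain ⟨u', hu', rfl⟩ := ih.1 hz
      exact ⟨w' ++ u', ⟨w', hw', u', hu', rfl⟩, by simp [st]⟩
    · rintro ⟨u', ⟨w, hw, z, hz, rfl⟩, rfl⟩
      refine ⟨w.map (fun c => .inl (c, 0)), ?_, st 0 z, ih.2 ⟨z, hz, rfl⟩, by simp [st]⟩
      rw [h2]
      exact ⟨w, hw, rfl⟩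

lemma rew_st_false {s : Fin (m + 1)} (hs : s.val < m) {u : List G.S} {v} :
    Rew (STab (two G g) false) (st s u) v ↔ v = st ⟨s.val + 1, by omega⟩ u := by
  have := rew_map (h := STab (two G g) false) (x := st s u) (y := v)
    (Sum.elim (fun d => .inl (d.1, ⟨s.val + 1, by omega⟩)) .inr) (by
      intro c hc
      simp only [st, List.mem_map] at hc
      obtain ⟨d, _, rfl⟩ := hc
      simp [STab, two, hs])
  rw [this]
  simp [st, Function.comp_def]

lemma rew_last_true {u : List G.S} {v} :
    Rew (STab (two G g) true) (st (Fin.last m) u) v ↔ v = u.map fl := by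
  have := rew_map (h := STab (two G g) true) (x := st (Fin.last m) u) (y := v)
    (Sum.elim (fun d => fl d.1) .inr) (by
      intro c hc
      simp only [st, List.mem_map] at hc
      obtain ⟨d, _, rfl⟩ := hc
      simp only [STab, two, Fin.val_last, lt_irrefl, dite_false, Sum.elim_inl, fl]
      split_ifs <;> rfl)
  rw [this]
  simp [st, Function.comp_def]

lemma rew_last_false {u : List G.S} {v} :
    Rew (STab (two G g) false) (st (Fin.last m) u) v ↔ v = st (Fin.last m) u := by
  apply rew_id
  intro c hc
  simp only [st, List.mem_map] at hc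
  obtain ⟨d, _, rfl⟩ := hc
  simp [STab, two]

lemma rew_fl {b : Bool} {u : List G.S} {v} :
    Rew (STab (two G g) b) (u.map fl) v ↔ v = u.map fl := by
  apply rew_id
  intro c hc
  rw [List.mem_map] at hc
  obtain ⟨d, _, rfl⟩ := hc
  unfold fl
  split_ifs with h
  · rfl
  · cases b <;> simp [STab, two, h]

lemma two_reach (hg : ∀ i, g i ∈ G.H) {v} (h : ReflTransGen (SStep (two G g)) (st 0 G.ax) v) :
    (∃ s u, ReflTransGen G.Step G.ax u ∧ v = st s u) ∨
    (∃ u, ReflTransGen G.Step G.ax u ∧ v = u.map fl) := by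
  induction h with
  | refl => exact Or.inl ⟨0, G.ax, .refl, rfl⟩
  | tail _ hs ih =>
    obtain ⟨b, hs⟩ := hs
    rcases ih with ⟨s, u, hu, rfl⟩ | ⟨u, hu, rfl⟩
    · by_cases hsm : s.val < m
      · cases b
        · rw [rew_st_false hsm] at hs
          exact Or.inl ⟨_, u, hu, hs⟩
        · rw [rew_st_true hsm] at hs
          obtain ⟨u', hu', rfl⟩ := hs
          exact Or.inl ⟨_, u', hu.tail ⟨_, hg _, hu'⟩, rfl⟩
      · have hsl : s = Fin.last m := Fin.ext (by simp; omega)
        subst hsl
        cases b
        · rw [rew_last_false] at hs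
          exact Or.inl ⟨_, u, hu, hs⟩
        · rw [rew_last_true] at hs
          exact Or.inr ⟨u, hu, hs⟩
    · rw [rew_fl] at hs
      exact Or.inr ⟨u, hu, hs⟩

lemma two_stage (u : List G.S) (s : Fin (m + 1)) :
    ReflTransGen (SStep (two G g)) (st 0 u) (st s u) := by
  obtain ⟨s, hs⟩ := s
  induction s with
  | zero => exact .refl
  | succ s ih =>
    refine (ih (by omega)).tail ⟨false, ?_⟩
    exact (rew_st_false (g := g) (s := ⟨s, by omega⟩) (by simp; omega)).2 rfl

lemma two_lang (hg : ∀ i, g i ∈ G.H) (hg' : ∀ h ∈ G.H, ∃ i, g i = h) :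
    G.lang = {w | ReflTransGen (SStep (two G g)) (st 0 G.ax) (w.map Sum.inr)} := by
  ext w
  simp only [LSys.lang, Set.mem_ofPred_eq]
  constructor
  · intro h
    have h1 : ∀ v, ReflTransGen G.Step G.ax v →
        ReflTransGen (SStep (two G g)) (st 0 G.ax) (st 0 v) := by
      intro v hv
      induction hv with
      | refl => exact .refl
      | tail _ hs ih =>
        obtain ⟨t, ht, hs⟩ := hs
        obtain ⟨i, rfl⟩ := hg' t ht
        refine (ih.trans (two_stage _ ⟨i.val, by omega⟩)).tail ⟨true, ?_⟩
        rw [rew_st_true (by simp)]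
        exact ⟨_, hs, rfl⟩
    refine ((h1 _ h).trans (two_stage _ (Fin.last m))).tail ⟨true, ?_⟩
    rw [rew_last_true, List.map_map]
    apply List.map_congr_left
    intro a _
    exact (fl_emb a).symm
  · intro h
    rcases two_reach hg h with ⟨s, u, hu, he⟩ | ⟨u, hu, he⟩
    · cases w with
      | nil =>
        cases u with
        | nil => exact hu
        | cons c u => simp [st] at he
      | cons a w =>
        cases u with
        | nil => simp [st] at he
        | cons c u => simp [st] at he
    · have : u = w.map G.emb := by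
        clear hu h
        induction w generalizing u with
        | nil =>
          cases u with
          | nil => rfl
          | cons c u => simp at he
        | cons a w ih =>
          cases u with
          | nil => simp at he
          | cons c u =>
            simp only [List.map_cons, List.cons.injEq] at he
            rw [List.map_cons, ih u he.2, fl_inr he.1.symm]
      rw [← this]
      exact hu

lemma two_fin (hg : ∀ i, g i ∈ G.H) (b : Bool) (d : G.S × Fin (m + 1)) :
    (two G g b d).Finite := by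
  unfold two
  split_ifs
  · cases b
    · exact Set.finite_singleton _
    · exact (G.val_fin _ (hg _) _).image _
  · cases b <;> exact Set.finite_singleton _
  · cases b <;> exact Set.finite_singleton _

lemma two_ne (hg : ∀ i, g i ∈ G.H) (b : Bool) (d : G.S × Fin (m + 1)) :
    (two G g b d).Nonempty := by
  unfold two
  split_ifs
  · cases b
    · exact Set.singleton_nonempty _
    · exact (G.val_ne _ (hg _) _).image _
  · cases b <;> exact Set.singleton_nonempty _
  · cases b <;> exact Set.singleton_nonempty _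

/-- Every ET0L language is generated by a 3-restricted ET0L system. -/
theorem mem_family_three (G : LSys T) : G.lang ∈ Family T 3 := by
  have := G.finS
  have : Finite T := Finite.of_injective G.emb G.emb_inj
  have : Finite G.H := G.H_fin
  obtain ⟨m, ⟨eH⟩⟩ := Finite.exists_equiv_fin G.H
  let g : Fin m → Table G.S := fun i => (eH.symm i).val
  have hg : ∀ i, g i ∈ G.H := fun i => (eH.symm i).2
  have hg' : ∀ h ∈ G.H, ∃ i, g i = h := fun h hh => ⟨eH ⟨h, hh⟩, by simp [g]⟩
  obtain ⟨n, ⟨e⟩⟩ := Finite.exists_equiv_fin (G.S × Fin (m + 1))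
  obtain ⟨c, hc⟩ := List.exists_mem_of_ne_nil _ G.ax_ne
  cases n with
  | zero => exact (e (c, 0)).elim0
  | succ N =>
    refine ⟨sim (two G g) e (two_fin hg) (two_ne hg) (st 0 G.ax), sim_restricted _ _ _ _ _, ?_⟩
    rw [sim_lang, two_lang hg hg']

end General

lemma LSys.Restricted.mono {T : Type} {G : LSys T} {k l : ℕ} (h : G.Restricted k)
    (hkl : k ≤ l) : G.Restricted l := fun t ht => (h t ht).trans hkl

end Pool.Agent.Helper920_ET0L
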