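import Pool.Agent.Helper920_ET0L.Basic

/-! The simulating 3-restricted system: letters, rules and soundness. -/

namespace Pool.Agent.Helper920_ET0L

open Relation

/-- letters of the simulating system -/
inductive Lt (Γ T : Type) (N : ℕ)
  | x (c : Γ)
  | y (c : Γ)
  | t (a : T)
  | A0
  | A1
  | As
  | W (i : Fin (N + 1)) (b : Bool)
  | J (b : Bool)
  | F

namespace Lt

variable {Γ T : Type} {N : ℕ}

instance [Finite Γ] [Finite T] : Finite (Lt Γ T N) := by
  let f : (Γ ⊕ Γ ⊕ T ⊕ Fin 4 ⊕ (Fin (N + 1) × Bool) ⊕ Bool) → Lt Γ T N := fun s =>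
    match s with
    | .inl c => .x c
    | .inr (.inl c) => .y c
    | .inr (.inr (.inl a)) => .t a
    | .inr (.inr (.inr (.inl 0))) => .A0
    | .inr (.inr (.inr (.inl 1))) => .A1
    | .inr (.inr (.inr (.inl 2))) => .As
    | .inr (.inr (.inr (.inl 3))) => .F
    | .inr (.inr (.inr (.inr (.inl (i, b))))) => .W i b
    | .inr (.inr (.inr (.inr (.inr b)))) => .J b
  refine Finite.of_surjective f ?_
  intro l
  cases l with
  | x c => exact ⟨.inl c, rfl⟩
  | y c => exact ⟨.inr (.inl c), rfl⟩
  | t a => exact ⟨.inr (.inr (.inl a)), rfl⟩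
  | A0 => exact ⟨.inr (.inr (.inr (.inl 0))), rfl⟩
  | A1 => exact ⟨.inr (.inr (.inr (.inl 1))), rfl⟩
  | As => exact ⟨.inr (.inr (.inr (.inl 2))), rfl⟩
  | W i b => exact ⟨.inr (.inr (.inr (.inr (.inl (i, b))))), rfl⟩
  | J b => exact ⟨.inr (.inr (.inr (.inr (.inr b)))), rfl⟩
  | F => exact ⟨.inr (.inr (.inr (.inl 3))), rfl⟩

/-- population letters -/
def isPop : Lt Γ T N → Prop
  | x _ => True
  | y _ => True
  | t _ => True
  | _ => False

/-- control letters -/
def isCtl : Lt Γ T N → Prop
  | A0 => True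
  | A1 => True
  | As => True
  | W _ _ => True
  | J _ => True
  | _ => False

/-- the ring letter before position `i` (or `z` if `i = 0`) -/
def prevW (z : Lt Γ T N) (b : Bool) (i : Fin (N + 1)) : Lt Γ T N :=
  if i.val = 0 then z else W ⟨i.val - 1, by omega⟩ b

/-- primed copy of a word -/
def ys : List (Γ ⊕ T) → List (Lt Γ T N) := List.map (Sum.elim y t)

/-- unprimed copy of a word -/
def xs : List (Γ ⊕ T) → List (Lt Γ T N) := List.map (Sum.elim x t)

/-- forget primes and control letters -/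
def up : List (Lt Γ T N) → List (Γ ⊕ T) := List.flatMap fun l =>
  match l with
  | x c => [.inl c]
  | y c => [.inl c]
  | t a => [.inr a]
  | _ => []

end Lt

open Lt

variable {Γ T : Type} {N : ℕ}

/-- The table number `b` of the two-table scheme `hb`. -/
def STab (hb : Bool → Γ → Set (List (Γ ⊕ T))) (b : Bool) : Table (Γ ⊕ T)
  | .inl c => hb b c
  | .inr a => {[.inr a]}

/-- one step of the two-table scheme -/
def SStep (hb : Bool → Γ → Set (List (Γ ⊕ T))) (u v : List (Γ ⊕ T)) : Prop :=
  ∃ b, Rew (STab hb b) u v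

/-- The rules of the simulating system: `Rule hb e l A z1 z2` means that there is a table
rewriting the letter `l` by `A` and sending `z1` and `z2` to the trap. -/
inductive Rule (hb : Bool → Γ → Set (List (Γ ⊕ T))) (e : Γ ≃ Fin (N + 1)) :
    Lt Γ T N → Set (List (Lt Γ T N)) → Lt Γ T N → Lt Γ T N → Prop
  | up0 : Rule hb e A0 {[A1]} (W (Fin.last N) true) (W (Fin.last N) true)
  | down0 : Rule hb e A1 {[A0]} (W (Fin.last N) false) (W (Fin.last N) false)
  | stop : Rule hb e A1 {[As]} (W (Fin.last N) false) (W (Fin.last N) false)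
  | up (i : Fin (N + 1)) : Rule hb e (W i false) {[W i true]} (prevW A0 false i) (x (e.symm i))
  | down (i : Fin (N + 1)) : Rule hb e (W i true) {[W i false]} (prevW A1 true i) (y (e.symm i))
  | xop (b : Bool) (c : Γ) : Rule hb e (x c) (ys '' hb b c) A0 (J (!b))
  | yop (c : Γ) : Rule hb e (y c) {[x c]} A1 As
  | jop (b : Bool) : Rule hb e (J b) {[J (!b)]} A1 A1
  | eraseN : Rule hb e (W (Fin.last N) false) {[]} A0 A1
  | erase (l : Lt Γ T N) (hl : isCtl l) (hl' : ∀ b, l ≠ W (Fin.last N) b) :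
      Rule hb e l {[]} (W (Fin.last N) false) (W (Fin.last N) true)

/-- Mixed population: each nonterminal occurrence is either still unprimed, or replaced. -/
def Mix (hb : Bool → Γ → Set (List (Γ ⊕ T))) (b : Bool) :
    List (Γ ⊕ T) → List (Lt Γ T N) → Prop
  | [], p => p = []
  | .inr a :: u, p => ∃ p', Mix hb b u p' ∧ p = t a :: p'
  | .inl c :: u, p => ∃ p', Mix hb b u p' ∧ (p = x c :: p' ∨ ∃ w ∈ hb b c, p = ys w ++ p')

/-- The control letters present in `q`. -/
def Sup (q : List (Lt Γ T N)) (a : Lt Γ T N) (σ : Fin (N + 1) → Bool) (j : Bool) : Prop :=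
  ∀ l, l ∈ q ↔ l = a ∨ (∃ i, l = W i (σ i)) ∨ l = J j

lemma Sup.map {q : List (Lt Γ T N)} {a : Lt Γ T N} {σ : Fin (N + 1) → Bool} {j : Bool}
    (h : Sup q a σ j) (f : Lt Γ T N → Lt Γ T N) (l : Lt Γ T N) :
    l ∈ q.map f ↔ l = f a ∨ (∃ i, l = f (W i (σ i))) ∨ l = f (J j) := by
  rw [List.mem_map]
  constructor
  · rintro ⟨c, hc, rfl⟩
    rcases (h c).1 hc with rfl | ⟨i, rfl⟩ | rfl
    · exact Or.inl rfl
    · exact Or.inr (Or.inl ⟨i, rfl⟩)
    · exact Or.inr (Or.inr rfl)
  · rintro (rfl | ⟨i, rfl⟩ | rfl)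
    · exact ⟨a, (h a).2 (Or.inl rfl), rfl⟩
    · exact ⟨_, (h _).2 (Or.inr (Or.inl ⟨i, rfl⟩)), rfl⟩
    · exact ⟨_, (h _).2 (Or.inr (Or.inr rfl)), rfl⟩

lemma Sup.repl_a {q : List (Lt Γ T N)} {a : Lt Γ T N} {σ : Fin (N + 1) → Bool} {j : Bool}
    (h : Sup q a σ j) (ha : a = A0 ∨ a = A1 ∨ a = As) (a' : Lt Γ T N) :
    Sup (q.map (repl a a')) a' σ j := by
  intro l
  rw [h.map, repl_self]
  have h1 : ∀ i, repl a a' (W i (σ i)) = W i (σ i) := fun i => repl_ne _ (by
    rcases ha with rfl | rfl | rfl <;> simp)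
  have h2 : repl a a' (J j) = J j := repl_ne _ (by
    rcases ha with rfl | rfl | rfl <;> simp)
  simp only [h1, h2]

lemma Sup.repl_W {q : List (Lt Γ T N)} {a : Lt Γ T N} {σ : Fin (N + 1) → Bool} {j : Bool}
    (h : Sup q a σ j) (ha : a = A0 ∨ a = A1 ∨ a = As) (i : Fin (N + 1)) (b b' : Bool)
    (hb : σ i = b) :
    Sup (q.map (repl (W i b) (W i b'))) a (Function.update σ i b') j := by
  intro l
  rw [h.map]
  have h0 : repl (W i b) (W i b') a = a := repl_ne _ (by
    rcases ha with rfl | rfl | rfl <;> simp)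
  have h2 : repl (W i b) (W i b') (J j : Lt Γ T N) = J j := repl_ne _ (by simp)
  have h1 : ∀ i', repl (W i b) (W i b') (W i' (σ i') : Lt Γ T N) =
      W i' (Function.update σ i b' i') := by
    intro i'
    by_cases hi : i' = i
    · subst hi; subst hb; simp [repl_self]
    · rw [repl_ne _ (by simp [hi]), Function.update_of_ne hi]
  simp only [h0, h1, h2]

lemma Sup.repl_J {q : List (Lt Γ T N)} {a : Lt Γ T N} {σ : Fin (N + 1) → Bool} {j : Bool}
    (h : Sup q a σ j) (ha : a = A0 ∨ a = A1 ∨ a = As) (b : Bool) :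
    Sup (q.map (repl (J j) (J b))) a σ b := by
  intro l
  rw [h.map, repl_self]
  have h0 : repl (J j) (J b) a = a := repl_ne _ (by
    rcases ha with rfl | rfl | rfl <;> simp)
  have h1 : ∀ i, repl (J j) (J b) (W i (σ i) : Lt Γ T N) = W i (σ i) :=
    fun i => repl_ne _ (by simp)
  simp only [h0, h1]

lemma up_nil : up ([] : List (Lt Γ T N)) = [] := rfl

lemma up_append (p p' : List (Lt Γ T N)) : up (p ++ p') = up p ++ up p' := by
  simp [up, List.flatMap_append]

lemma up_cons_x (c : Γ) (p : List (Lt Γ T N)) : up (x c :: p) = .inl c :: up p := rfl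
lemma up_cons_y (c : Γ) (p : List (Lt Γ T N)) : up (y c :: p) = .inl c :: up p := rfl
lemma up_cons_t (a : T) (p : List (Lt Γ T N)) : up (t a :: p) = .inr a :: up p := rfl

lemma up_ys (w : List (Γ ⊕ T)) : up (ys w : List (Lt Γ T N)) = w := by
  induction w with
  | nil => rfl
  | cons a w ih =>
    cases a with
    | inl c => change up (y c :: ys w) = _; rw [up_cons_y, ih]
    | inr c => change up (t c :: ys w) = _; rw [up_cons_t, ih]

lemma up_xs (w : List (Γ ⊕ T)) : up (xs w : List (Lt Γ T N)) = w := by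
  induction w with
  | nil => rfl
  | cons a w ih =>
    cases a with
    | inl c => change up (x c :: xs w) = _; rw [up_cons_x, ih]
    | inr c => change up (t c :: xs w) = _; rw [up_cons_t, ih]

lemma pop_ys {w : List (Γ ⊕ T)} {l : Lt Γ T N} (hl : l ∈ ys w) :
    isPop l ∧ ∀ c, l ≠ x c := by
  simp only [ys, List.mem_map] at hl
  obtain ⟨a, _, rfl⟩ := hl
  cases a <;> simp [isPop]

lemma pop_xs {w : List (Γ ⊕ T)} {l : Lt Γ T N} (hl : l ∈ xs w) :
    isPop l ∧ ∀ c, l ≠ y c := by
  simp only [xs, List.mem_map] at hl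
  obtain ⟨a, _, rfl⟩ := hl
  cases a <;> simp [isPop]

variable {hb : Bool → Γ → Set (List (Γ ⊕ T))}

lemma Mix.pop {b : Bool} {u : List (Γ ⊕ T)} {p : List (Lt Γ T N)} (h : Mix hb b u p) :
    ∀ l ∈ p, isPop l := by
  induction u generalizing p with
  | nil => simp only [Mix] at h; subst h; simp
  | cons a u ih =>
    cases a with
    | inr a =>
      obtain ⟨p', hp', rfl⟩ := h
      intro l hl
      rcases List.mem_cons.1 hl with rfl | hl
      · trivial
      · exact ih hp' l hl
    | inl c =>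
      obtain ⟨p', hp', rfl | ⟨w, _, rfl⟩⟩ := h
      · intro l hl
        rcases List.mem_cons.1 hl with rfl | hl
        · trivial
        · exact ih hp' l hl
      · intro l hl
        rcases List.mem_append.1 hl with hl | hl
        · exact (pop_ys hl).1
        · exact ih hp' l hl

/-- If all nonterminals have been treated, the population is a result of the table. -/
lemma Mix.no_x {b : Bool} {u : List (Γ ⊕ T)} {p : List (Lt Γ T N)} (h : Mix hb b u p)
    (hx : ∀ c, x c ∉ p) : Rew (STab hb b) u (up p) := by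
  induction u generalizing p with
  | nil => simp only [Mix] at h; subst h; simp [up_nil]
  | cons a u ih =>
    cases a with
    | inr a =>
      obtain ⟨p', hp', rfl⟩ := h
      refine ⟨[.inr a], by simp [STab], up p', ih hp' (fun c hc => hx c
        (List.mem_cons_of_mem _ hc)), rfl⟩
    | inl c =>
      obtain ⟨p', hp', rfl | ⟨w, hw, rfl⟩⟩ := h
      · exact absurd List.mem_cons_self (hx c)
      · refine ⟨w, hw, up p', ih hp' (fun c hc => hx c
          (List.mem_append_right _ hc)), ?_⟩
        rw [up_append, up_ys]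

lemma Mix.start {b : Bool} {p : List (Lt Γ T N)} (hp : ∀ l ∈ p, isPop l)
    (hy : ∀ c, y c ∉ p) : Mix hb b (up p) p := by
  induction p with
  | nil => simp [up_nil, Mix]
  | cons l p ih =>
    have ih' := ih (fun l hl => hp l (List.mem_cons_of_mem _ hl))
      (fun c hc => hy c (List.mem_cons_of_mem _ hc))
    cases l with
    | x c => rw [up_cons_x]; exact ⟨p, ih', Or.inl rfl⟩
    | y c => exact absurd List.mem_cons_self (hy c)
    | t a => rw [up_cons_t]; exact ⟨p, ih', rfl⟩
    | A0 => exact absurd (hp _ List.mem_cons_self) (by simp [isPop])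
    | A1 => exact absurd (hp _ List.mem_cons_self) (by simp [isPop])
    | As => exact absurd (hp _ List.mem_cons_self) (by simp [isPop])
    | W i b => exact absurd (hp _ List.mem_cons_self) (by simp [isPop])
    | J b => exact absurd (hp _ List.mem_cons_self) (by simp [isPop])
    | F => exact absurd (hp _ List.mem_cons_self) (by simp [isPop])

lemma Mix.xop {b : Bool} {u : List (Γ ⊕ T)} {p p' : List (Lt Γ T N)} {c : Γ}
    (h : Mix hb b u p) (hr : Rew (one (x c) (ys '' hb b c)) p p') : Mix hb b u p' := by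
  induction u generalizing p p' with
  | nil => simp only [Mix] at h; subst h; simpa [Mix] using hr
  | cons a u ih =>
    cases a with
    | inr a =>
      obtain ⟨p1, hp1, rfl⟩ := h
      obtain ⟨w, hw, z, hz, rfl⟩ := hr
      rw [one_ne _ (by simp), Set.mem_singleton_iff] at hw
      subst hw
      exact ⟨z, ih hp1 hz, rfl⟩
    | inl d =>
      obtain ⟨p1, hp1, rfl | ⟨w, hw, rfl⟩⟩ := h
      · obtain ⟨w, hw, z, hz, rfl⟩ := hr
        by_cases hcd : d = c
        · subst hcd
          rw [one_self] at hw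
          obtain ⟨w', hw', rfl⟩ := hw
          exact ⟨z, ih hp1 hz, Or.inr ⟨w', hw', rfl⟩⟩
        · rw [one_ne _ (by simp [hcd]), Set.mem_singleton_iff] at hw
          subst hw
          exact ⟨z, ih hp1 hz, Or.inl rfl⟩
      · rw [rew_append] at hr
        obtain ⟨y1, y2, h1, h2, rfl⟩ := hr
        rw [one_notMem (fun hc => (pop_ys hc).2 c rfl)] at h1
        subst h1
        exact ⟨y2, ih hp1 h2, Or.inr ⟨w, hw, rfl⟩⟩

lemma up_map_repl (c : Γ) (p : List (Lt Γ T N)) : up (p.map (repl (y c) (x c))) = up p := by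
  induction p with
  | nil => rfl
  | cons l p ih =>
    have : up (repl (y c) (x c) l :: p.map (repl (y c) (x c))) = up (l :: p) := by
      by_cases hl : l = y c
      · subst hl
        rw [repl_self, up_cons_x, up_cons_y, ih]
      · rw [repl_ne _ hl]
        have h2 : ∀ p : List (Lt Γ T N), up (l :: p) = up [l] ++ up p := fun p => by
          rw [← up_append]; rfl
        rw [h2, h2 p, ih]
    exact this

end Pool.Agent.Helper920_ET0L
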