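import Pool.Agent.Helper920_ET0L.Sim

/-! Soundness of the simulating 3-restricted system. -/

namespace Pool.Agent.Helper920_ET0L

open Relation Lt

variable {Γ T : Type} {N : ℕ}

section Inv

variable (hb : Bool → Γ → Set (List (Γ ⊕ T))) (e : Γ ≃ Fin (N + 1))
  (Rch : List (Γ ⊕ T) → Prop)

/-- control at rest or going down -/
def Ph0 (p q : List (Lt Γ T N)) : Prop :=
  ∃ σ j, Sup q A0 σ j ∧
    (∀ i, σ i = false → ∀ i' ≤ i, σ i' = false ∧ y (e.symm i') ∉ p) ∧ Rch (up p)

/-- control going up -/
def Ph1 (p q : List (Lt Γ T N)) : Prop :=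
  ∃ σ j, Sup q A1 σ j ∧
    (∀ i, σ i = true → ∀ i' ≤ i, σ i' = true ∧ x (e.symm i') ∉ p) ∧ ∃ u, Rch u ∧ Mix hb j u p

/-- control in the final test -/
def Phs (p q : List (Lt Γ T N)) : Prop :=
  ∃ σ j, Sup q As σ j ∧ (∀ c, x c ∉ p) ∧
    (∀ i, σ i = false → ∀ i' ≤ i, y (e.symm i') ∉ p) ∧ Rch (up p)

/-- the population is terminal -/
def Phe (p q : List (Lt Γ T N)) : Prop :=
  (∀ l ∈ q, isCtl l ∧ ∀ b, l ≠ W (Fin.last N) b) ∧ (∀ c, x c ∉ p ∧ y c ∉ p) ∧ Rch (up p)

/-- the invariant -/
def Inv (w : List (Lt Γ T N)) : Prop :=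
  F ∈ w ∨ ∃ p q, w = p ++ q ∧ (∀ l ∈ p, isPop l) ∧
    (Ph0 e Rch p q ∨ Ph1 hb e Rch p q ∨ Phs e Rch p q ∨ Phe Rch p q)

end Inv

variable {hb : Bool → Γ → Set (List (Γ ⊕ T))} {e : Γ ≃ Fin (N + 1)}
  {Rch : List (Γ ⊕ T) → Prop}

lemma prevW_zero (z : Lt Γ T N) (b : Bool) {i : Fin (N + 1)} (hi : i.val = 0) :
    prevW z b i = z := by simp [prevW, hi]

lemma prevW_pos (z : Lt Γ T N) (b : Bool) {i : Fin (N + 1)} (hi : i.val ≠ 0) :
    prevW z b i = W ⟨i.val - 1, by omega⟩ b := by simp [prevW, hi]

lemma notMem_pop {p : List (Lt Γ T N)} (hp : ∀ l ∈ p, isPop l) {l : Lt Γ T N}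
    (hl : ¬ isPop l) : l ∉ p := fun h => hl (hp l h)

lemma Rule.ne {l : Lt Γ T N} {A : Set (List (Lt Γ T N))} {z1 z2 : Lt Γ T N}
    (h : Rule hb e l A z1 z2) : z1 ≠ l ∧ z2 ≠ l ∧ F ≠ l := by
  cases h with
  | up0 => simp
  | down0 => simp
  | stop => simp
  | up i =>
    refine ⟨?_, by simp, by simp⟩
    by_cases hi : i.val = 0
    · rw [prevW_zero _ _ hi]; simp
    · rw [prevW_pos _ _ hi]
      intro h
      simp only [W.injEq, Fin.ext_iff] at h
      omega
  | down i =>
    refine ⟨?_, by simp, by simp⟩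
    by_cases hi : i.val = 0
    · rw [prevW_zero _ _ hi]; simp
    · rw [prevW_pos _ _ hi]
      intro h
      simp only [W.injEq, Fin.ext_iff] at h
      omega
  | xop b c => simp
  | yop c => simp
  | jop b => simp
  | eraseN => simp
  | erase l hl hl' =>
    refine ⟨fun h => hl' _ h.symm, fun h => hl' _ h.symm, ?_⟩
    rintro rfl
    simp [isCtl] at hl

lemma Sup.iff_W {q : List (Lt Γ T N)} {a : Lt Γ T N} {σ : Fin (N + 1) → Bool} {j : Bool}
    (h : Sup q a σ j) (ha : a = A0 ∨ a = A1 ∨ a = As) (i : Fin (N + 1)) (b : Bool) :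
    W i b ∈ q ↔ σ i = b := by
  rw [h]
  rcases ha with rfl | rfl | rfl <;> simp [eq_comm]

lemma Sup.iff_J {q : List (Lt Γ T N)} {a : Lt Γ T N} {σ : Fin (N + 1) → Bool} {j : Bool}
    (h : Sup q a σ j) (ha : a = A0 ∨ a = A1 ∨ a = As) (b : Bool) :
    J b ∈ q ↔ b = j := by
  rw [h]
  rcases ha with rfl | rfl | rfl <;> simp

lemma Sup.ctl {q : List (Lt Γ T N)} {a : Lt Γ T N} {σ : Fin (N + 1) → Bool} {j : Bool}
    (h : Sup q a σ j) (ha : a = A0 ∨ a = A1 ∨ a = As) : ∀ l ∈ q, isCtl l := by
  intro l hl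
  rcases (h l).1 hl with rfl | ⟨i, rfl⟩ | rfl
  · rcases ha with rfl | rfl | rfl <;> trivial
  · trivial
  · trivial

/-- The population after a step that rewrites only a control letter is unchanged. -/
lemma pop_const {p p' : List (Lt Γ T N)} {l : Lt Γ T N} {A : Set (List (Lt Γ T N))}
    (hp : ∀ l ∈ p, isPop l) (hl : ¬ isPop l) (h : Rew (one l A) p p') : p' = p :=
  (one_notMem (notMem_pop hp hl)).1 h

section Step

variable {p q p' q' : List (Lt Γ T N)} {l : Lt Γ T N} {A : Set (List (Lt Γ T N))}
  {z1 z2 : Lt Γ T N}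

lemma step_e (hp : ∀ l ∈ p, isPop l) (hI : Phe Rch p q) (hR : Rule hb e l A z1 z2)
    (h1 : Rew (one l A) p p') (h2 : Rew (one l A) q q') : p' = p ∧ Phe Rch p q' := by
  obtain ⟨hq, hxy, hrch⟩ := hI
  have hlp : l ∉ p := by
    intro hl
    cases hR with
    | xop b c => exact (hxy c).1 hl
    | yop c => exact (hxy c).2 hl
    | erase l hl1 hl2 =>
      have := hp l hl
      cases l <;> simp_all [isPop, isCtl]
    | _ => exact absurd (hp _ hl) (by simp [isPop])
  refine ⟨(one_notMem hlp).1 h1, ?_, hxy, hrch⟩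
  intro b hbq
  obtain ⟨c, hc, w, hw, hbw⟩ := rew_mem h2 hbq
  by_cases hcl : c = l
  · subst hcl
    rw [one_self] at hw
    have hcq := hq c hc
    cases hR with
    | up0 => simp only [Set.mem_singleton_iff] at hw; subst hw; simp at hbw; subst hbw; simp [isCtl]
    | down0 => simp only [Set.mem_singleton_iff] at hw; subst hw; simp at hbw; subst hbw; simp [isCtl]
    | stop => simp only [Set.mem_singleton_iff] at hw; subst hw; simp at hbw; subst hbw; simp [isCtl]
    | up i =>
      simp only [Set.mem_singleton_iff] at hw; subst hw; simp at hbw; subst hbw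
      refine ⟨trivial, fun b h => ?_⟩
      have := hcq.2 false
      simp only [W.injEq] at h
      simp [h.1] at this
    | down i =>
      simp only [Set.mem_singleton_iff] at hw; subst hw; simp at hbw; subst hbw
      refine ⟨trivial, fun b h => ?_⟩
      have := hcq.2 true
      simp only [W.injEq] at h
      simp [h.1] at this
    | xop b c => simp [isCtl] at hcq
    | yop c => simp [isCtl] at hcq
    | jop b => simp only [Set.mem_singleton_iff] at hw; subst hw; simp at hbw; subst hbw; simp [isCtl]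
    | eraseN => simp only [Set.mem_singleton_iff] at hw; subst hw; simp at hbw
    | erase l hl1 hl2 => simp only [Set.mem_singleton_iff] at hw; subst hw; simp at hbw
  · rw [one_ne _ hcl, Set.mem_singleton_iff] at hw
    subst hw
    simp at hbw
    subst hbw
    exact hq _ hc

lemma step_0 (hp : ∀ l ∈ p, isPop l) (hI : Ph0 e Rch p q) (hR : Rule hb e l A z1 z2)
    (hl : l ∈ p ++ q) (hz1 : z1 ∉ p ++ q) (hz2 : z2 ∉ p ++ q)
    (h1 : Rew (one l A) p p') (h2 : Rew (one l A) q q') :
    (∀ l ∈ p', isPop l) ∧ (Ph0 e Rch p' q' ∨ Ph1 hb e Rch p' q') := by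
  obtain ⟨σ, j, hS, hI, hrch⟩ := hI
  have hA : (A0 : Lt Γ T N) = A0 ∨ (A0 : Lt Γ T N) = A1 ∨ (A0 : Lt Γ T N) = As := Or.inl rfl
  have hz1q : z1 ∉ q := fun h => hz1 (List.mem_append_right _ h)
  have hz2q : z2 ∉ q := fun h => hz2 (List.mem_append_right _ h)
  have hz2p : z2 ∉ p := fun h => hz2 (List.mem_append_left _ h)
  have hq0 : A0 ∈ q := (hS _).2 (Or.inl rfl)
  cases hR with
  | up0 =>
    have := pop_const hp (by simp [isPop]) h1
    subst this
    refine ⟨hp, Or.inr ?_⟩
    rw [one_single] at h2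
    subst h2
    rw [hS.iff_W hA] at hz1q
    have hN : σ (Fin.last N) = false := by simpa using hz1q
    have hall := hI _ hN
    refine ⟨σ, j, hS.repl_a hA A1, ?_, up p', hrch, ?_⟩
    · intro i hi
      have := (hall i (Fin.le_last i)).1
      rw [this] at hi
      cases hi
    · refine Mix.start hp ?_
      intro c hc
      have := (hall (e c) (Fin.le_last _)).2
      rw [e.symm_apply_apply] at this
      exact this hc
  | down0 =>
    exfalso
    rcases List.mem_append.1 hl with h | h
    · exact absurd (hp _ h) (by simp [isPop])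
    · rw [hS] at h; simp at h
  | stop =>
    exfalso
    rcases List.mem_append.1 hl with h | h
    · exact absurd (hp _ h) (by simp [isPop])
    · rw [hS] at h; simp at h
  | up i =>
    exfalso
    have hWi : W i false ∈ q := by
      rcases List.mem_append.1 hl with h | h
      · exact absurd (hp _ h) (by simp [isPop])
      · exact h
    rw [hS.iff_W hA] at hWi
    by_cases hi : i.val = 0
    · rw [prevW_zero _ _ hi] at hz1q; exact hz1q hq0
    · rw [prevW_pos _ _ hi, hS.iff_W hA] at hz1q
      have := (hI i hWi ⟨i.val - 1, by omega⟩ (by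
        rw [Fin.le_def]; simp)).1
      exact hz1q this
  | down i =>
    have := pop_const hp (by simp [isPop]) h1
    subst this
    refine ⟨hp, Or.inl ?_⟩
    have hWi : W i true ∈ q := by
      rcases List.mem_append.1 hl with h | h
      · exact absurd (hp _ h) (by simp [isPop])
      · exact h
    rw [hS.iff_W hA] at hWi
    rw [one_single] at h2
    subst h2
    refine ⟨_, j, hS.repl_W hA i true false hWi, ?_, hrch⟩
    intro k hk i' hi'
    by_cases hki : k = i
    · subst hki
      by_cases hi'k : i' = k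
      · subst hi'k
        exact ⟨by simp, hz2p⟩
      · have hlt : i'.val < k.val := by
          have h3 : i'.val ≤ k.val := hi'
          have h4 : i'.val ≠ k.val := fun h => hi'k (Fin.ext h)
          omega
        have h0 : k.val ≠ 0 := by omega
        rw [prevW_pos _ _ h0, hS.iff_W hA] at hz1q
        have h5 : σ ⟨k.val - 1, by omega⟩ = false := by simpa using hz1q
        have h6 := hI _ h5 i' (by rw [Fin.le_def]; simp; omega)
        rw [Function.update_of_ne hi'k]
        exact h6
    · rw [Function.update_of_ne hki] at hk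
      have h6 := hI k hk i' hi'
      by_cases hi'i : i' = i
      · subst hi'i
        exact ⟨by simp, h6.2⟩
      · rw [Function.update_of_ne hi'i]
        exact h6
  | xop b c => exact absurd hq0 hz1q
  | yop c =>
    have hyq : (y c : Lt Γ T N) ∉ q := fun h => absurd (hS.ctl hA _ h) (by simp [isCtl])
    rw [one_notMem hyq] at h2
    subst h2
    rw [one_single] at h1
    subst h1
    refine ⟨?_, Or.inl ⟨σ, j, hS, ?_, by rw [up_map_repl]; exact hrch⟩⟩
    · intro l hl
      rw [List.mem_map] at hl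
      obtain ⟨l', hl', rfl⟩ := hl
      by_cases h : l' = y c
      · subst h; rw [repl_self]; trivial
      · rw [repl_ne _ h]; exact hp _ hl'
    · intro i hi i' hi'
      refine ⟨(hI i hi i' hi').1, ?_⟩
      intro hm
      rw [List.mem_map] at hm
      obtain ⟨l', hl', hl2⟩ := hm
      by_cases h : l' = y c
      · subst h; rw [repl_self] at hl2; cases hl2
      · rw [repl_ne _ h] at hl2; subst hl2; exact (hI i hi i' hi').2 hl'
  | jop b =>
    have := pop_const hp (by simp [isPop]) h1
    subst this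
    refine ⟨hp, Or.inl ?_⟩
    have hj : J b ∈ q := by
      rcases List.mem_append.1 hl with h | h
      · exact absurd (hp _ h) (by simp [isPop])
      · exact h
    rw [hS.iff_J hA] at hj
    subst hj
    rw [one_single] at h2
    subst h2
    exact ⟨σ, _, hS.repl_J hA _, hI, hrch⟩
  | eraseN => exact absurd hq0 hz1q
  | erase l hl1 hl2 =>
    exfalso
    rw [hS.iff_W hA] at hz1q hz2q
    cases h : σ (Fin.last N)
    · exact hz1q h
    · exact hz2q h

lemma step_1 (hRch : ∀ u v, Rch u → SStep hb u v → Rch v)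
    (hp : ∀ l ∈ p, isPop l) (hI : Ph1 hb e Rch p q) (hR : Rule hb e l A z1 z2)
    (hl : l ∈ p ++ q) (hz1 : z1 ∉ p ++ q) (hz2 : z2 ∉ p ++ q)
    (h1 : Rew (one l A) p p') (h2 : Rew (one l A) q q') :
    (∀ l ∈ p', isPop l) ∧ (Ph0 e Rch p' q' ∨ Ph1 hb e Rch p' q' ∨ Phs e Rch p' q') := by
  obtain ⟨σ, j, hS, hI, u, hu, hmix⟩ := hI
  have hA : (A1 : Lt Γ T N) = A0 ∨ (A1 : Lt Γ T N) = A1 ∨ (A1 : Lt Γ T N) = As :=
    Or.inr (Or.inl rfl)
  have hz1q : z1 ∉ q := fun h => hz1 (List.mem_append_right _ h)
  have hz2q : z2 ∉ q := fun h => hz2 (List.mem_append_right _ h)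
  have hz2p : z2 ∉ p := fun h => hz2 (List.mem_append_left _ h)
  have hq1 : A1 ∈ q := (hS _).2 (Or.inl rfl)
  have hfull : σ (Fin.last N) = true → (∀ c, (x c : Lt Γ T N) ∉ p) ∧ (∀ i, σ i = true) ∧
      Rch (up p) := by
    intro hN
    have hall := hI _ hN
    have hx : ∀ c, (x c : Lt Γ T N) ∉ p := by
      intro c hc
      have := (hall (e c) (Fin.le_last _)).2
      rw [e.symm_apply_apply] at this
      exact this hc
    exact ⟨hx, fun i => (hall i (Fin.le_last i)).1, hRch u _ hu ⟨j, hmix.no_x hx⟩⟩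
  cases hR with
  | up0 =>
    exfalso
    rcases List.mem_append.1 hl with h | h
    · exact absurd (hp _ h) (by simp [isPop])
    · rw [hS] at h; simp at h
  | down0 =>
    have := pop_const hp (by simp [isPop]) h1
    subst this
    refine ⟨hp, Or.inl ?_⟩
    rw [one_single] at h2
    subst h2
    rw [hS.iff_W hA] at hz1q
    have hN : σ (Fin.last N) = true := by simpa using hz1q
    obtain ⟨hx, hall, hr⟩ := hfull hN
    refine ⟨σ, j, hS.repl_a hA A0, ?_, hr⟩
    intro i hi
    rw [hall i] at hi
    cases hi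
  | stop =>
    have := pop_const hp (by simp [isPop]) h1
    subst this
    refine ⟨hp, Or.inr (Or.inr ?_)⟩
    rw [one_single] at h2
    subst h2
    rw [hS.iff_W hA] at hz1q
    have hN : σ (Fin.last N) = true := by simpa using hz1q
    obtain ⟨hx, hall, hr⟩ := hfull hN
    refine ⟨σ, j, hS.repl_a hA As, hx, ?_, hr⟩
    intro i hi
    rw [hall i] at hi
    cases hi
  | up i =>
    have := pop_const hp (by simp [isPop]) h1
    subst this
    refine ⟨hp, Or.inr (Or.inl ?_)⟩
    have hWi : W i false ∈ q := by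
      rcases List.mem_append.1 hl with h | h
      · exact absurd (hp _ h) (by simp [isPop])
      · exact h
    rw [hS.iff_W hA] at hWi
    rw [one_single] at h2
    subst h2
    refine ⟨_, j, hS.repl_W hA i false true hWi, ?_, u, hu, hmix⟩
    intro k hk i' hi'
    by_cases hki : k = i
    · subst hki
      by_cases hi'k : i' = k
      · subst hi'k
        exact ⟨by simp, hz2p⟩
      · have hlt : i'.val < k.val := by
          have h3 : i'.val ≤ k.val := hi'
          have h4 : i'.val ≠ k.val := fun h => hi'k (Fin.ext h)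
          omega
        have h0 : k.val ≠ 0 := by omega
        rw [prevW_pos _ _ h0, hS.iff_W hA] at hz1q
        have h5 : σ ⟨k.val - 1, by omega⟩ = true := by simpa using hz1q
        have h6 := hI _ h5 i' (by rw [Fin.le_def]; simp; omega)
        rw [Function.update_of_ne hi'k]
        exact h6
    · rw [Function.update_of_ne hki] at hk
      have h6 := hI k hk i' hi'
      by_cases hi'i : i' = i
      · subst hi'i
        exact ⟨by simp, h6.2⟩
      · rw [Function.update_of_ne hi'i]
        exact h6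
  | down i =>
    exfalso
    have hWi : W i true ∈ q := by
      rcases List.mem_append.1 hl with h | h
      · exact absurd (hp _ h) (by simp [isPop])
      · exact h
    rw [hS.iff_W hA] at hWi
    by_cases hi : i.val = 0
    · rw [prevW_zero _ _ hi] at hz1q; exact hz1q hq1
    · rw [prevW_pos _ _ hi, hS.iff_W hA] at hz1q
      have := (hI i hWi ⟨i.val - 1, by omega⟩ (by
        rw [Fin.le_def]; simp)).1
      exact hz1q this
  | xop b c =>
    rw [hS.iff_J hA] at hz2q
    have hbj : b = j := by
      cases b <;> cases j <;> simp_all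
    subst hbj
    have hxq : (x c : Lt Γ T N) ∉ q := fun h => absurd (hS.ctl hA _ h) (by simp [isCtl])
    rw [one_notMem hxq] at h2
    subst h2
    have hmix' := hmix.xop h1
    refine ⟨hmix'.pop, Or.inr (Or.inl ⟨σ, b, hS, ?_, u, hu, hmix'⟩)⟩
    intro i hi i' hi'
    refine ⟨(hI i hi i' hi').1, ?_⟩
    intro hm
    obtain ⟨d, hd, w, hw, hdw⟩ := rew_mem h1 hm
    by_cases hdc : d = x c
    · subst hdc
      rw [one_self] at hw
      obtain ⟨w', _, rfl⟩ := hw
      exact (pop_ys hdw).2 _ rfl
    · rw [one_ne _ hdc, Set.mem_singleton_iff] at hw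
      subst hw
      simp at hdw
      subst hdw
      exact (hI i hi i' hi').2 hd
  | yop c => exact absurd hq1 hz1q
  | jop b => exact absurd hq1 hz1q
  | eraseN => exact absurd hq1 hz2q
  | erase l hl1 hl2 =>
    exfalso
    rw [hS.iff_W hA] at hz1q hz2q
    cases h : σ (Fin.last N)
    · exact hz1q h
    · exact hz2q h

lemma step_s (hp : ∀ l ∈ p, isPop l) (hI : Phs e Rch p q) (hR : Rule hb e l A z1 z2)
    (hl : l ∈ p ++ q) (hz1 : z1 ∉ p ++ q) (hz2 : z2 ∉ p ++ q)
    (h1 : Rew (one l A) p p') (h2 : Rew (one l A) q q') :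
    (∀ l ∈ p', isPop l) ∧ (Phs e Rch p' q' ∨ Phe Rch p' q') := by
  obtain ⟨σ, j, hS, hx, hI, hrch⟩ := hI
  have hA : (As : Lt Γ T N) = A0 ∨ (As : Lt Γ T N) = A1 ∨ (As : Lt Γ T N) = As :=
    Or.inr (Or.inr rfl)
  have hz1q : z1 ∉ q := fun h => hz1 (List.mem_append_right _ h)
  have hz2q : z2 ∉ q := fun h => hz2 (List.mem_append_right _ h)
  have hz2p : z2 ∉ p := fun h => hz2 (List.mem_append_left _ h)
  have hqs : As ∈ q := (hS _).2 (Or.inl rfl)
  cases hR with
  | up0 =>
    exfalso
    rcases List.mem_append.1 hl with h | h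
    · exact absurd (hp _ h) (by simp [isPop])
    · rw [hS] at h; simp at h
  | down0 =>
    exfalso
    rcases List.mem_append.1 hl with h | h
    · exact absurd (hp _ h) (by simp [isPop])
    · rw [hS] at h; simp at h
  | stop =>
    exfalso
    rcases List.mem_append.1 hl with h | h
    · exact absurd (hp _ h) (by simp [isPop])
    · rw [hS] at h; simp at h
  | up i =>
    have := pop_const hp (by simp [isPop]) h1
    subst this
    refine ⟨hp, Or.inl ?_⟩
    have hWi : W i false ∈ q := by
      rcases List.mem_append.1 hl with h | h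
      · exact absurd (hp _ h) (by simp [isPop])
      · exact h
    rw [hS.iff_W hA] at hWi
    rw [one_single] at h2
    subst h2
    refine ⟨_, j, hS.repl_W hA i false true hWi, hx, ?_, hrch⟩
    intro k hk i' hi'
    by_cases hki : k = i
    · subst hki; simp at hk
    · rw [Function.update_of_ne hki] at hk
      exact hI k hk i' hi'
  | down i =>
    have := pop_const hp (by simp [isPop]) h1
    subst this
    refine ⟨hp, Or.inl ?_⟩
    have hWi : W i true ∈ q := by
      rcases List.mem_append.1 hl with h | h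
      · exact absurd (hp _ h) (by simp [isPop])
      · exact h
    rw [hS.iff_W hA] at hWi
    rw [one_single] at h2
    subst h2
    refine ⟨_, j, hS.repl_W hA i true false hWi, hx, ?_, hrch⟩
    intro k hk i' hi'
    by_cases hki : k = i
    · subst hki
      by_cases hi'k : i' = k
      · subst hi'k
        exact hz2p
      · have hlt : i'.val < k.val := by
          have h3 : i'.val ≤ k.val := hi'
          have h4 : i'.val ≠ k.val := fun h => hi'k (Fin.ext h)
          omega
        have h0 : k.val ≠ 0 := by omega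
        rw [prevW_pos _ _ h0, hS.iff_W hA] at hz1q
        have h5 : σ ⟨k.val - 1, by omega⟩ = false := by simpa using hz1q
        exact hI _ h5 i' (by rw [Fin.le_def]; simp; omega)
    · rw [Function.update_of_ne hki] at hk
      exact hI k hk i' hi'
  | xop b c =>
    exfalso
    rcases List.mem_append.1 hl with h | h
    · exact hx c h
    · exact absurd (hS.ctl hA _ h) (by simp [isCtl])
  | yop c => exact absurd hqs hz2q
  | jop b =>
    have := pop_const hp (by simp [isPop]) h1
    subst this
    refine ⟨hp, Or.inl ?_⟩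
    have hj : J b ∈ q := by
      rcases List.mem_append.1 hl with h | h
      · exact absurd (hp _ h) (by simp [isPop])
      · exact h
    rw [hS.iff_J hA] at hj
    subst hj
    rw [one_single] at h2
    subst h2
    exact ⟨σ, _, hS.repl_J hA _, hx, hI, hrch⟩
  | eraseN =>
    have := pop_const hp (by simp [isPop]) h1
    subst this
    refine ⟨hp, Or.inr ?_⟩
    have hN : W (Fin.last N) false ∈ q := by
      rcases List.mem_append.1 hl with h | h
      · exact absurd (hp _ h) (by simp [isPop])
      · exact h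
    have hN' := hN
    rw [hS.iff_W hA] at hN'
    refine ⟨?_, fun c => ⟨hx c, ?_⟩, hrch⟩
    · intro b hbq
      obtain ⟨c, hc, w, hw, hbw⟩ := rew_mem h2 hbq
      by_cases hcl : c = W (Fin.last N) false
      · subst hcl
        rw [one_self, Set.mem_singleton_iff] at hw
        subst hw
        simp at hbw
      · rw [one_ne _ hcl, Set.mem_singleton_iff] at hw
        subst hw
        simp at hbw
        subst hbw
        refine ⟨hS.ctl hA _ hc, ?_⟩
        rintro b' rfl
        rw [hS.iff_W hA] at hc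
        rw [hN'] at hc
        subst hc
        exact hcl rfl
    · intro hc
      have := hI _ hN' (e c) (Fin.le_last _)
      rw [e.symm_apply_apply] at this
      exact this hc
  | erase l hl1 hl2 =>
    exfalso
    rw [hS.iff_W hA] at hz1q hz2q
    cases h : σ (Fin.last N)
    · exact hz1q h
    · exact hz2q h

end Step

/-- The invariant is kept by every step. -/
lemma Inv.step (hRch : ∀ u v, Rch u → SStep hb u v → Rch v) {w w' : List (Lt Γ T N)}
    (hI : Inv hb e Rch w) {l : Lt Γ T N} {A : Set (List (Lt Γ T N))} {z1 z2 : Lt Γ T N}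
    (hR : Rule hb e l A z1 z2) (hr : Rew (mk F l A z1 z2) w w') : Inv hb e Rch w' := by
  obtain ⟨hn1, hn2, hnF⟩ := hR.ne
  rcases hI with hF | ⟨p, q, rfl, hp, hph⟩
  · exact Or.inl (mk_F hnF hr hF)
  rcases mk_split hn1 hn2 hr with hF | ⟨hz1, hz2, hr⟩
  · exact Or.inl hF
  by_cases hl : l ∈ p ++ q
  · rw [rew_append] at hr
    obtain ⟨p', q', h1, h2, rfl⟩ := hr
    refine Or.inr ⟨p', q', rfl, ?_⟩
    rcases hph with h | h | h | h
    · obtain ⟨h3, h4⟩ := step_0 hp h hR hl hz1 hz2 h1 h2
      exact ⟨h3, by tauto⟩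
    · obtain ⟨h3, h4⟩ := step_1 hRch hp h hR hl hz1 hz2 h1 h2
      exact ⟨h3, by tauto⟩
    · obtain ⟨h3, h4⟩ := step_s (hb := hb) hp h hR hl hz1 hz2 h1 h2
      exact ⟨h3, by tauto⟩
    · obtain ⟨h3, h4⟩ := step_e (hb := hb) hp h hR h1 h2
      subst h3
      exact ⟨hp, by tauto⟩
  · rw [one_notMem hl] at hr
    subst hr
    exact Or.inr ⟨p, q, rfl, hp, hph⟩

lemma up_map_t (w : List T) : up (w.map (t : T → Lt Γ T N)) = w.map Sum.inr := by
  induction w with
  | nil => rfl
  | cons a w ih => rw [List.map_cons, up_cons_t, ih, List.map_cons]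

/-- A terminal word satisfying the invariant comes from a reachable word. -/
lemma Inv.terminal {w : List T} (hI : Inv hb e Rch (w.map t)) : Rch (w.map Sum.inr) := by
  rcases hI with hF | ⟨p, q, hw, hp, hph⟩
  · simp at hF
  have hpq : ∀ l ∈ q, ∃ a, l = t a := by
    intro l hl
    have : l ∈ w.map (t : T → Lt Γ T N) := hw ▸ List.mem_append_right _ hl
    rw [List.mem_map] at this
    obtain ⟨a, _, rfl⟩ := this
    exact ⟨a, rfl⟩
  have hbad : ∀ (a : Lt Γ T N) σ j, (a = A0 ∨ a = A1 ∨ a = As) → ¬ Sup q a σ j := by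
    intro a σ j ha hS
    obtain ⟨b, hb⟩ := hpq a ((hS a).2 (Or.inl rfl))
    rcases ha with rfl | rfl | rfl <;> cases hb
  rcases hph with ⟨σ, j, hS, -⟩ | ⟨σ, j, hS, -⟩ | ⟨σ, j, hS, -⟩ | ⟨hq, -, hr⟩
  · exact absurd hS (hbad _ σ j (Or.inl rfl))
  · exact absurd hS (hbad _ σ j (Or.inr (Or.inl rfl)))
  · exact absurd hS (hbad _ σ j (Or.inr (Or.inr rfl)))
  · have hq0 : q = [] := by
      rw [List.eq_nil_iff_forall_not_mem]
      intro l hl
      obtain ⟨a, rfl⟩ := hpq l hl
      exact absurd (hq _ hl).1 (by simp [isCtl])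
    subst hq0
    rw [List.append_nil] at hw
    rw [← hw, up_map_t] at hr
    exact hr

end Pool.Agent.Helper920_ET0L
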